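import Pool.Agent.N246.Riv.Red

set_option autoImplicit false
open MeasureTheory Set Filter Topology
open scoped ENNReal

namespace Pool.Agent.N246.Riv

theorem int_exp (n : ℤ) : ∫ θ, Complex.exp (n * θ * Complex.I) ∂mu
    = if n = 0 then (2 * Real.pi : ℂ) else 0 := by
  rw [← integral_Ioc_eq_integral_Ioo, ← intervalIntegral.integral_of_le (by linarith [Real.pi_pos])]
  by_cases hn : n = 0
  · simp [hn]
    ring
  · rw [if_neg hn]
    have hc : ((n : ℂ) * Complex.I) ≠ 0 := mul_ne_zero (by exact_mod_cast hn) Complex.I_ne_zero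
    have h := integral_exp_mul_complex (a := -Real.pi) (b := Real.pi) hc
    have e : ∀ θ : ℝ, Complex.exp (n * θ * Complex.I) = Complex.exp (n * Complex.I * θ) := by
      intro θ; congr 1; ring
    simp_rw [e]
    rw [h]
    have h1 : Complex.exp (n * Complex.I * (Real.pi : ℝ)) = Complex.exp (n * Complex.I * ((-Real.pi : ℝ) : ℂ)) := by
      rw [Complex.exp_eq_exp_iff_exists_int]
      refine ⟨n, ?_⟩
      push_cast
      ring
    rw [h1, sub_self, zero_div]

/-- the functions on the circle -/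
noncomputable def HJ (J : ℕ) (θ : ℝ) : ℝ :=
  ∑ j ∈ Finset.range J, (lam (fr j) * Complex.exp (fr j * θ * Complex.I)).re

theorem HJ_continuous (J : ℕ) : Continuous (HJ J) := by
  unfold HJ
  refine continuous_finsetSum _ fun j _ => ?_
  exact Complex.continuous_re.comp (by fun_prop)

instance : IsFiniteMeasure mu := ⟨by
  rw [Measure.restrict_apply_univ, Real.volume_Ioo]; exact ENNReal.ofReal_lt_top⟩

theorem HJ_bound (J : ℕ) : ∃ C, ∀ θ, ‖HJ J θ‖ ≤ C := by
  refine ⟨∑ j ∈ Finset.range J, ‖lam (fr j)‖, fun θ => ?_⟩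
  unfold HJ
  refine (norm_sum_le _ _).trans (Finset.sum_le_sum fun j _ => ?_)
  refine (Complex.abs_re_le_norm _).trans ?_
  rw [norm_mul]
  have : Complex.exp (fr j * θ * Complex.I) = Complex.exp (((fr j * θ : ℝ) : ℂ) * Complex.I) := by
    push_cast; rfl
  rw [this, Complex.norm_exp_ofReal_mul_I, mul_one]

theorem HJ_memLp (J : ℕ) : MemLp (HJ J) 2 mu := by
  obtain ⟨C, hC⟩ := HJ_bound J
  exact MemLp.of_bound (HJ_continuous J).aestronglyMeasurable C (Eventually.of_forall hC)

/-- Fourier coefficients of `HJ` -/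
theorem HJ_coef {J j : ℕ} (hj : j < J) :
    ∫ θ, (HJ J θ : ℂ) * Complex.exp (fr j * θ * Complex.I) ∂mu
      = Real.pi * (starRingEnd ℂ) (lam (fr j)) := by
  have h1 : ∀ θ : ℝ, (HJ J θ : ℂ) * Complex.exp (fr j * θ * Complex.I)
      = ∑ i ∈ Finset.range J, (lam (fr i) / 2 * Complex.exp (((fr i + fr j : ℤ) : ℂ) * θ * Complex.I)
        + (starRingEnd ℂ) (lam (fr i)) / 2 *
          Complex.exp (((fr j - fr i : ℤ) : ℂ) * θ * Complex.I)) := by
    intro θ
    rw [HJ]
    push_cast
    rw [Finset.sum_mul]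
    refine Finset.sum_congr rfl fun i _ => ?_
    rw [Complex.re_eq_add_conj, map_mul, ← Complex.exp_conj]
    have : (starRingEnd ℂ) (fr i * θ * Complex.I) = -(fr i * θ * Complex.I) := by
      rw [map_mul, map_mul, Complex.conj_I, Complex.conj_ofReal, Complex.conj_natCast]
      ring
    rw [this]
    have e1 : Complex.exp (((fr i : ℂ) + fr j) * θ * Complex.I)
        = Complex.exp (fr i * θ * Complex.I) * Complex.exp (fr j * θ * Complex.I) := by
      rw [← Complex.exp_add]; congr 1; ring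
    have e2 : Complex.exp (((fr j : ℂ) - fr i) * θ * Complex.I)
        = Complex.exp (-(fr i * θ * Complex.I)) * Complex.exp (fr j * θ * Complex.I) := by
      rw [← Complex.exp_add]; congr 1; ring
    rw [e1, e2]
    ring
  simp_rw [h1]
  have hint : ∀ n : ℤ, Integrable (fun θ : ℝ => Complex.exp (n * θ * Complex.I)) mu := by
    intro n
    refine Integrable.of_bound (C := 1) (by fun_prop) (Eventually.of_forall fun θ => ?_)
    have : Complex.exp (n * θ * Complex.I) = Complex.exp (((n * θ : ℝ) : ℂ) * Complex.I) := by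
      push_cast; rfl
    rw [this, Complex.norm_exp_ofReal_mul_I]
  have hI : ∀ i ∈ Finset.range J, Integrable (fun θ : ℝ =>
      (lam (fr i) / 2 * Complex.exp (((fr i + fr j : ℤ) : ℂ) * θ * Complex.I)
        + (starRingEnd ℂ) (lam (fr i)) / 2 *
          Complex.exp (((fr j - fr i : ℤ) : ℂ) * θ * Complex.I))) mu :=
    fun i _ => ((hint _).const_mul _).add ((hint _).const_mul _)
  rw [integral_finsetSum _ hI]
  have h2 : ∀ i ∈ Finset.range J,
      ∫ θ, (lam (fr i) / 2 * Complex.exp (((fr i + fr j : ℤ) : ℂ) * (θ : ℝ) * Complex.I)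
        + (starRingEnd ℂ) (lam (fr i)) / 2 *
          Complex.exp (((fr j - fr i : ℤ) : ℂ) * θ * Complex.I)) ∂mu
      = if i = j then Real.pi * (starRingEnd ℂ) (lam (fr j)) else 0 := by
    intro i _
    rw [integral_add ((hint _).const_mul _) ((hint _).const_mul _), integral_const_mul,
      integral_const_mul, int_exp, int_exp]
    have a1 : ((fr i : ℤ) + fr j) ≠ 0 := by
      have := fr_pos i; have := fr_pos j; omega
    rw [if_neg a1, mul_zero, zero_add]
    by_cases hij : i = j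
    · subst hij
      simp
      ring
    · have a2 : ((fr j : ℤ) - fr i) ≠ 0 := by
        rcases lt_or_gt_of_ne hij with h | h
        · have := fr_lt h; have := fr_pos i; omega
        · have := fr_lt h; have := fr_pos j; omega
      rw [if_neg a2, mul_zero, if_neg hij]
  rw [Finset.sum_congr rfl h2, Finset.sum_ite_eq', if_pos (Finset.mem_range.2 hj)]

/-- the pairing in terms of `HJ` -/
theorem sum_eq {Ω : ℝ → ℝ} (hΩ : Integrable Ω mu) (J : ℕ) :
    ∑ j ∈ Finset.range J,
        (lam (fr j) * ∫ θ, (Ω θ : ℂ) * Complex.exp (fr j * θ * Complex.I) ∂mu).re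
      = ∫ θ, Ω θ * HJ J θ ∂mu := by
  have hint : ∀ j, Integrable (fun θ : ℝ => (Ω θ : ℂ) * Complex.exp (fr j * θ * Complex.I)) mu := by
    intro j
    refine hΩ.ofReal.mul_bdd (c := 1) (by fun_prop) (Eventually.of_forall fun θ => ?_)
    have : Complex.exp (fr j * θ * Complex.I) = Complex.exp (((fr j * θ : ℝ) : ℂ) * Complex.I) := by
      push_cast; rfl
    rw [this, Complex.norm_exp_ofReal_mul_I]
  have h1 : ∀ j, (lam (fr j) * ∫ θ, (Ω θ : ℂ) * Complex.exp (fr j * θ * Complex.I) ∂mu).re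
      = ∫ θ, Ω θ * (lam (fr j) * Complex.exp (fr j * θ * Complex.I)).re ∂mu := by
    intro j
    rw [← integral_const_mul]
    have h2 := integral_re ((hint j).const_mul (lam (fr j)))
    refine Eq.trans h2.symm ?_
    refine integral_congr_ae (Eventually.of_forall fun θ => ?_)
    show (lam (fr j) * ((Ω θ : ℂ) * Complex.exp (fr j * θ * Complex.I))).re = _
    rw [show lam (fr j) * ((Ω θ : ℂ) * Complex.exp (fr j * θ * Complex.I))
      = (Ω θ : ℂ) * (lam (fr j) * Complex.exp (fr j * θ * Complex.I)) by ring,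
      Complex.re_ofReal_mul]
  simp_rw [h1]
  rw [← integral_finsetSum]
  · refine integral_congr_ae (Eventually.of_forall fun θ => ?_)
    simp only
    rw [HJ, Finset.mul_sum]
  · intro j _
    refine (((hint j).const_mul (lam (fr j))).re).congr (Eventually.of_forall fun θ => ?_)
    show (lam (fr j) * ((Ω θ : ℂ) * Complex.exp (fr j * θ * Complex.I))).re = _
    rw [show lam (fr j) * ((Ω θ : ℂ) * Complex.exp (fr j * θ * Complex.I))
      = (Ω θ : ℂ) * (lam (fr j) * Complex.exp (fr j * θ * Complex.I)) by ring,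
      Complex.re_ofReal_mul]

theorem HJ_sq (J : ℕ) : ∫ θ, HJ J θ * HJ J θ ∂mu
    = Real.pi * ∑ j ∈ Finset.range J, ‖lam (fr j)‖ ^ 2 := by
  have hi : Integrable (HJ J) mu := (HJ_memLp J).integrable (by norm_num)
  rw [← sum_eq hi, Finset.mul_sum]
  refine Finset.sum_congr rfl fun j hj => ?_
  rw [HJ_coef (Finset.mem_range.1 hj)]
  have : lam (fr j) * (Real.pi * (starRingEnd ℂ) (lam (fr j)))
      = ((Real.pi * ‖lam (fr j)‖ ^ 2 : ℝ) : ℂ) := by
    rw [show lam (fr j) * (Real.pi * (starRingEnd ℂ) (lam (fr j)))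
      = Real.pi * (lam (fr j) * (starRingEnd ℂ) (lam (fr j))) by ring, Complex.mul_conj,
      Complex.normSq_eq_norm_sq]
    push_cast
    ring
  rw [this, Complex.ofReal_re]

/-- the L² norms of the `HJ` are unbounded -/
theorem HJ_unbounded (C : ℝ) : ∃ J, C < ∫ θ, HJ J θ * HJ J θ ∂mu := by
  obtain ⟨c, hc, N, hN⟩ := lam_lower
  obtain ⟨k, hk⟩ := exists_nat_gt (C / (Real.pi * c ^ 2))
  refine ⟨N + k, ?_⟩
  rw [HJ_sq]
  have h1 : (k : ℝ) * c ^ 2 ≤ ∑ j ∈ Finset.range (N + k), ‖lam (fr j)‖ ^ 2 := by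
    rw [Finset.sum_range_add]
    have h2 : (k : ℝ) * c ^ 2 ≤ ∑ x ∈ Finset.range k, ‖lam (fr (N + x))‖ ^ 2 := by
      have : ∑ x ∈ Finset.range k, c ^ 2 ≤ ∑ x ∈ Finset.range k, ‖lam (fr (N + x))‖ ^ 2 := by
        refine Finset.sum_le_sum fun x _ => ?_
        refine pow_le_pow_left₀ hc.le (hN _ ?_) 2
        have : ∀ i, i ≤ fr i := fun i => by
          unfold fr
          calc i ≤ 4 ^ i := (Nat.lt_pow_self (by norm_num)).le
            _ ≤ 4 ^ (i + 1) := Nat.pow_le_pow_right (by norm_num) (by omega)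
        exact le_trans (Nat.le_add_right N x) (this _)
      simpa using this
    have h3 : 0 ≤ ∑ x ∈ Finset.range N, ‖lam (fr x)‖ ^ 2 :=
      Finset.sum_nonneg fun _ _ => by positivity
    linarith
  have hpos : 0 < Real.pi * c ^ 2 := by positivity
  rw [div_lt_iff₀ hpos] at hk
  calc C < k * (Real.pi * c ^ 2) := hk
    _ = Real.pi * (k * c ^ 2) := by ring
    _ ≤ _ := mul_le_mul_of_nonneg_left h1 Real.pi_pos.le

/-- Banach-Steinhaus: the pairings with the `HJ` are unbounded for some square integrable `u`. -/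
theorem exists_unbounded : ∃ u : Lp ℝ 2 mu, ∀ C : ℝ, ∃ J, C < |∫ θ, u θ * HJ J θ ∂mu| := by
  by_contra hcon
  push Not at hcon
  set h : ℕ → Lp ℝ 2 mu := fun J => (HJ_memLp J).toLp (HJ J) with hh
  have hin : ∀ (J : ℕ) (u : Lp ℝ 2 mu), (innerSL ℝ (h J)) u = ∫ θ, u θ * HJ J θ ∂mu := by
    intro J u
    rw [innerSL_apply_apply, L2.inner_def]
    refine integral_congr_ae ?_
    filter_upwards [(HJ_memLp J).coeFn_toLp] with θ hθ
    rw [RCLike.inner_apply, conj_trivial, hθ]
  obtain ⟨C, hC⟩ := banach_steinhaus (g := fun J => innerSL ℝ (h J)) (fun u => by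
    obtain ⟨C, hC⟩ := hcon u
    refine ⟨C, fun J => ?_⟩
    rw [hin, Real.norm_eq_abs]
    exact hC J)
  obtain ⟨J, hJ⟩ := HJ_unbounded (C ^ 2)
  have h1 : ‖h J‖ ≤ C := by
    have := hC J
    rwa [innerSL_apply_norm] at this
  have h2 : ∫ θ, HJ J θ * HJ J θ ∂mu = ‖h J‖ ^ 2 := by
    rw [← real_inner_self_eq_norm_sq, ← innerSL_apply_apply ℝ, hin]
    refine integral_congr_ae ?_
    filter_upwards [(HJ_memLp J).coeFn_toLp] with θ hθ
    rw [hθ]
  have h3 : ‖h J‖ ^ 2 ≤ C ^ 2 := pow_le_pow_left₀ (norm_nonneg _) h1 2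
  linarith

end Pool.Agent.N246.Riv
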