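import Pool.Agent.N246.Riv.BS

set_option autoImplicit false
open MeasureTheory Filter Topology Metric

namespace Pool.Agent.N246.Riv

/-- the isometry of the complex plane with the Euclidean plane -/
noncomputable def iso : ℂ ≃ₗᵢ[ℝ] EuclideanSpace ℝ (Fin 2) := Complex.orthonormalBasisOneI.repr

theorem iso_mp : MeasurePreserving iso (volume : Measure ℂ) volume := iso.measurePreserving

theorem iso_emb : MeasurableEmbedding iso := iso.toHomeomorph.measurableEmbedding

/-- transfer of set integrals -/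
theorem tr_set (G : EuclideanSpace ℝ (Fin 2) → ℝ) (s : Set (EuclideanSpace ℝ (Fin 2))) :
    ∫ x in s, G x = ∫ z in iso ⁻¹' s, G (iso z) :=
  (iso_mp.setIntegral_preimage_emb iso_emb G s).symm

theorem tr_int (G : EuclideanSpace ℝ (Fin 2) → ℝ) (s : Set (EuclideanSpace ℝ (Fin 2))) :
    IntegrableOn G s ↔ IntegrableOn (fun z => G (iso z)) (iso ⁻¹' s) :=
  (iso_mp.integrableOn_comp_preimage iso_emb).symm

theorem main :
    ¬ (∀ (n : ℕ), 1 ≤ n →
    ∀ (k : EuclideanSpace ℝ (Fin n) → ℝ), Measurable k →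
    (∀ x : EuclideanSpace ℝ (Fin n), x ≠ 0 → ∀ t : ℝ, 0 < t →
        k (t • x) = t ^ (-(n : ℤ)) * k x) →
    IntegrableOn k {x : EuclideanSpace ℝ (Fin n) | 1 ≤ ‖x‖ ∧ ‖x‖ ≤ 2} volume →
    (∫ x in {x : EuclideanSpace ℝ (Fin n) | 1 ≤ ‖x‖ ∧ ‖x‖ ≤ 2}, k x) = 0 →
    IntegrableOn (fun x => |k x| * max 0 (Real.log |k x|))
        {x : EuclideanSpace ℝ (Fin n) | 1 ≤ ‖x‖ ∧ ‖x‖ ≤ 2} volume →
    ∃ C : ℝ, ∀ (f : EuclideanSpace ℝ (Fin n) → ℝ) (M : ℝ),
      Measurable f → HasCompactSupport f → (∀ x, |f x| ≤ M) →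
      ∀ g : EuclideanSpace ℝ (Fin n) → ℝ,
        (∀ᵐ x ∂(volume : Measure (EuclideanSpace ℝ (Fin n))),
          Tendsto (fun ε : ℝ => ∫ y in {y : EuclideanSpace ℝ (Fin n) | ε < ‖y‖}, k y * f (x - y))
            (𝓝[>] 0) (𝓝 (g x))) →
        ∀ (c : EuclideanSpace ℝ (Fin n)) (r : ℝ), 0 < r →
          IntegrableOn g (ball c r) volume ∧
          (⨍ x in ball c r, |g x - ⨍ y in ball c r, g y|) ≤ C * M) := by
  intro H
  obtain ⟨u, hu⟩ := exists_unbounded
  -- the angular function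
  have huL : MemLp u 2 mu := Lp.memLp u
  have hui : Integrable u mu := huL.integrable (by norm_num)
  set a : ℝ := (∫ θ, u θ ∂mu) / (2 * Real.pi) with ha
  set Ω : ℝ → ℝ := fun θ => u θ - a with hΩdef
  have hΩm : Measurable Ω := (Lp.stronglyMeasurable u).measurable.sub_const a
  have hΩL : MemLp Ω 2 mu := huL.sub (memLp_const a)
  have hΩi : Integrable Ω mu := hΩL.integrable (by norm_num)
  have hvol : mu.real Set.univ = 2 * Real.pi := by
    rw [measureReal_def, Measure.restrict_apply_univ, Real.volume_Ioo,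
      ENNReal.toReal_ofReal (by linarith [Real.pi_pos])]
    ring
  have hΩ0 : ∫ θ, Ω θ ∂mu = 0 := by
    have h1 : ∫ θ, Ω θ ∂mu = ∫ θ, u θ ∂mu - ∫ _θ, a ∂mu := integral_sub hui (integrable_const a)
    rw [h1, integral_const, hvol, smul_eq_mul, ha]
    have := Real.pi_pos.ne'
    field_simp
    ring
  have hΩs : Integrable (fun θ => Ω θ ^ 2) mu := hΩL.integrable_sq
  -- the kernel
  set k : EuclideanSpace ℝ (Fin 2) → ℝ := fun x => ker Ω (iso.symm x) with hk
  have hset : iso ⁻¹' {x : EuclideanSpace ℝ (Fin 2) | 1 ≤ ‖x‖ ∧ ‖x‖ ≤ 2}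
      = {z : ℂ | 1 ≤ ‖z‖ ∧ ‖z‖ ≤ 2} := by
    ext z
    simp
  have hkm : Measurable k := (measurable_ker hΩm).comp iso.symm.continuous.measurable
  have hkh : ∀ x : EuclideanSpace ℝ (Fin 2), x ≠ 0 → ∀ t : ℝ, 0 < t →
        k (t • x) = t ^ (-((2 : ℕ) : ℤ)) * k x := by
    intro x _ t ht
    simp only [hk, map_smul]
    rw [ker, ker, Complex.real_smul, Complex.arg_real_mul _ ht, norm_mul, Complex.norm_real,
      Real.norm_eq_abs, abs_of_pos ht, mul_pow, zpow_neg, zpow_natCast]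
    rw [div_mul_eq_div_div_swap]
    ring
  have hksq : IntegrableOn (fun z => ker Ω z ^ 2) {z : ℂ | 1 ≤ ‖z‖ ∧ ‖z‖ ≤ 2} :=
    integrable_ker_sq hΩm hΩs
  have hki : IntegrableOn k {x : EuclideanSpace ℝ (Fin 2) | 1 ≤ ‖x‖ ∧ ‖x‖ ≤ 2} volume := by
    rw [tr_int, hset]
    simp only [hk, LinearIsometryEquiv.symm_apply_apply]
    refine (integrable_ker_annulus hΩm hΩi (a := 1 / 2) (b := 2) (by norm_num)).mono_set ?_
    intro z hz
    exact ⟨by linarith [hz.1], hz.2⟩
  have hk0 : (∫ x in {x : EuclideanSpace ℝ (Fin 2) | 1 ≤ ‖x‖ ∧ ‖x‖ ≤ 2}, k x) = 0 := by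
    rw [tr_set, hset]
    simp only [hk, LinearIsometryEquiv.symm_apply_apply]
    exact integral_ker_radial hΩ0 (T := Set.Icc 1 2) measurableSet_Icc
  have hkl : IntegrableOn (fun x => |k x| * max 0 (Real.log |k x|))
        {x : EuclideanSpace ℝ (Fin 2) | 1 ≤ ‖x‖ ∧ ‖x‖ ≤ 2} volume := by
    rw [tr_int, hset]
    simp only [hk, LinearIsometryEquiv.symm_apply_apply]
    refine hksq.mono' ?_ (Eventually.of_forall fun z => ?_)
    · have := measurable_ker hΩm
      exact Measurable.aestronglyMeasurable (by fun_prop)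
    · have h1 : max 0 (Real.log |ker Ω z|) ≤ |ker Ω z| :=
        max_le (abs_nonneg _) (Real.log_le_self (abs_nonneg _))
      rw [Real.norm_eq_abs, abs_of_nonneg (mul_nonneg (abs_nonneg _) (le_max_left _ _)),
        ← sq_abs, sq]
      exact mul_le_mul_of_nonneg_left h1 (abs_nonneg _)
  obtain ⟨C, hC⟩ := H 2 (by norm_num) k hkm hkh hki hk0 hkl
  -- the bound for the pairing
  set V : ℝ := volume.real (ball (0:ℂ) 1) with hV
  obtain ⟨J, hJ⟩ := hu (2 * (V * C))
  have hpair := pair hΩm hΩi J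
  rw [sum_eq hΩi] at hpair
  have hsame : ∫ θ, Ω θ * HJ J θ ∂mu = ∫ θ, u θ * HJ J θ ∂mu := by
    have hHi : Integrable (HJ J) mu := (HJ_memLp J).integrable (by norm_num)
    obtain ⟨D, hD⟩ := HJ_bound J
    have hprod : Integrable (fun θ => u θ * HJ J θ) mu :=
      hui.mul_bdd (c := D) (HJ_continuous J).aestronglyMeasurable (Eventually.of_forall hD)
    have hz : ∫ θ, HJ J θ ∂mu = 0 := by
      have h1 := sum_eq (integrable_const (1:ℝ) : Integrable (fun _ : ℝ => (1:ℝ)) mu) J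
      simp only [one_mul] at h1
      rw [← h1]
      refine Finset.sum_eq_zero fun j _ => ?_
      have h2 := int_exp (fr j : ℤ)
      have h3 : (fr j : ℤ) ≠ 0 := by have := fr_pos j; omega
      rw [if_neg h3] at h2
      have h4 : ∫ θ, ((1:ℝ) : ℂ) * Complex.exp (fr j * (θ : ℝ) * Complex.I) ∂mu = 0 := by
        rw [← h2]
        refine integral_congr_ae (Eventually.of_forall fun θ => ?_)
        simp
      rw [h4]
      simp
    have h5 : ∫ θ, Ω θ * HJ J θ ∂mu = ∫ θ, (u θ * HJ J θ - a * HJ J θ) ∂mu := by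
      refine integral_congr_ae (Eventually.of_forall fun θ => ?_)
      simp only [hΩdef]
      ring
    rw [h5, integral_sub hprod (hHi.const_mul a), integral_const_mul, hz, mul_zero, sub_zero]
  rw [hsame] at hpair
  rw [← hpair] at hJ
  -- apply the hypothesis
  obtain ⟨L, hL⟩ := tf_lipschitz J
  have hCC := hC (fun x => tf J (iso.symm x)) 1
    ((tf_contDiff J).continuous.measurable.comp iso.symm.continuous.measurable)
    ((tf_hasCompactSupport J).comp_homeomorph iso.symm.toHomeomorph)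
    (fun x => abs_tf_le J _) (fun x => pvg Ω (tf J) (iso.symm x)) ?_ 0 1 one_pos
  · rw [mul_one] at hCC
    obtain ⟨hg1, hg2⟩ := hCC
    have hball : iso ⁻¹' (ball (0 : EuclideanSpace ℝ (Fin 2)) 1) = ball (0:ℂ) 1 := by
      ext z
      simp
    rw [tr_int, hball] at hg1
    simp only [LinearIsometryEquiv.symm_apply_apply] at hg1
    have hvolb : volume.real (ball (0 : EuclideanSpace ℝ (Fin 2)) 1) = V := by
      rw [hV, ← hball, measureReal_def, measureReal_def,
        iso_mp.measure_preimage_emb iso_emb]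
    have hav : ∀ G : EuclideanSpace ℝ (Fin 2) → ℝ,
        (⨍ x in ball (0 : EuclideanSpace ℝ (Fin 2)) 1, G x) = ⨍ z in ball (0:ℂ) 1, G (iso z) := by
      intro G
      rw [setAverage_eq, setAverage_eq, hvolb, tr_set, hball]
    rw [hav, hav] at hg2
    simp only [LinearIsometryEquiv.symm_apply_apply] at hg2
    have := osc_bound hg1 hg2
    linarith
  · refine Eventually.of_forall fun x => ?_
    have h1 := pv_tendsto hΩm hΩi hΩ0 hL (R := 2 * fr J) (fun z hz => tf_zero_far hz)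
      (abs_tf_le J) (iso.symm x)
    refine h1.congr fun ε => ?_
    rw [tr_set]
    have h2 : iso ⁻¹' {y : EuclideanSpace ℝ (Fin 2) | ε < ‖y‖} = {y : ℂ | ε < ‖y‖} := by
      ext z
      simp
    rw [h2]
    simp only [hk, LinearIsometryEquiv.symm_apply_apply, map_sub]

end Pool.Agent.N246.Riv
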