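import Pool.Agent.N246.Riv.Pair

set_option autoImplicit false
open MeasureTheory Set Filter Topology
open scoped ENNReal

namespace Pool.Agent.N246.Riv

/-- the limit of the test functions -/
noncomputable def Wl (s : ℝ) (c : ℂ) : ℂ :=
  (chi (s ^ 2) : ℂ) * (Complex.exp (-c / s) / ‖Complex.exp (-c / s)‖)

theorem wc_tendsto {s : ℝ} (hs : 0 < s) (c : ℂ) :
    Tendsto (fun m : ℕ => wc m (((m : ℝ) * s : ℝ) - c)) atTop (𝓝 (Wl s c)) := by
  have hsc : (s : ℂ) ≠ 0 := by exact_mod_cast hs.ne'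
  have h1 : Tendsto (fun m : ℕ => (1 + (-c / s) / m) ^ m) atTop (𝓝 (Complex.exp (-c / s))) :=
    Complex.tendsto_one_add_div_pow_exp _
  have h2 : Tendsto (fun m : ℕ => (1 + (-c / s) / m) ^ m / ((‖(1 + (-c / s) / m) ^ m‖ : ℝ) : ℂ))
      atTop (𝓝 (Complex.exp (-c / s) / ‖Complex.exp (-c / s)‖)) := by
    refine h1.div ?_ ?_
    · exact (Complex.continuous_ofReal.tendsto _).comp h1.norm
    · exact_mod_cast (norm_ne_zero_iff.2 (Complex.exp_ne_zero _))
  have h3 : Tendsto (fun m : ℕ => (s : ℂ) - c / m) atTop (𝓝 (s : ℂ)) := by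
    have : Tendsto (fun m : ℕ => c / (m : ℂ)) atTop (𝓝 0) := by
      have := (tendsto_const_nhds (x := c)).mul
        (tendsto_inv_atTop_nhds_zero_nat (𝕜 := ℂ))
      simpa [div_eq_mul_inv] using this
    simpa using (tendsto_const_nhds (x := (s : ℂ))).sub this
  have h4 : Tendsto (fun m : ℕ => (chi (‖(s : ℂ) - c / m‖ ^ 2) : ℂ)) atTop
      (𝓝 (chi (s ^ 2) : ℂ)) := by
    refine (Complex.continuous_ofReal.tendsto _).comp ?_
    have h5 : Tendsto (fun m : ℕ => ‖(s : ℂ) - c / m‖ ^ 2) atTop (𝓝 (s ^ 2)) := by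
      have := (h3.norm).pow 2
      rwa [Complex.norm_real, Real.norm_eq_abs, sq_abs] at this
    exact ((chi.contDiff (n := 0)).continuous.tendsto _).comp h5
  refine (h4.mul h2).congr' ?_
  filter_upwards [eventually_gt_atTop 0] with m hm
  have hm' : (0:ℝ) < m := by exact_mod_cast hm
  have hmc : (m : ℂ) ≠ 0 := by exact_mod_cast hm.ne'
  have e1 : (((m : ℝ) * s : ℝ) : ℂ) - c = (((m : ℝ) * s : ℝ) : ℂ) * (1 + (-c / s) / m) := by
    push_cast
    field_simp
    ring
  have e2 : (((m : ℝ) * s : ℝ) : ℂ) - c = (m : ℂ) * ((s : ℂ) - c / m) := by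
    push_cast
    field_simp
  rw [wc]
  congr 1
  · congr 2
    rw [e2, norm_mul, Complex.norm_natCast, mul_pow]
    field_simp
  · rw [norm_pow, Complex.ofReal_pow, ← div_pow]
    congr 1
    have hpos : 0 < (m : ℝ) * s := by positivity
    have hne : (((m : ℝ) * s : ℝ) : ℂ) ≠ 0 := by exact_mod_cast hpos.ne'
    rw [e1, norm_mul, Complex.norm_real, Real.norm_eq_abs, abs_of_pos hpos,
      Complex.ofReal_mul ((m : ℝ) * s) ‖1 + -c / (s : ℂ) / m‖, mul_div_mul_left _ _ hne]

theorem norm_Wl_le (s : ℝ) (c : ℂ) : ‖Wl s c‖ ≤ 1 := by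
  rw [Wl, norm_mul, norm_div, Complex.norm_real, Complex.norm_real, norm_norm, Real.norm_eq_abs,
    abs_of_nonneg (chi_nonneg _)]
  calc chi (s ^ 2) * (‖Complex.exp (-c / s)‖ / ‖Complex.exp (-c / s)‖) ≤ 1 * 1 :=
        mul_le_mul (chi_le_one _) (div_self_le_one _) (by positivity) zero_le_one
    _ = 1 := one_mul 1

theorem re_Wl (s : ℝ) (c : ℂ) : (Wl s c).re = chi (s ^ 2) * Real.cos (c.im / s) := by
  have e : Complex.exp (-c / s) / ‖Complex.exp (-c / s)‖
      = Complex.exp (((-c / s).im : ℝ) * Complex.I) := by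
    rw [Complex.norm_exp]
    have : Complex.exp (-c / s) = Complex.exp (((-c / s).re : ℝ)) *
        Complex.exp (((-c / s).im : ℝ) * Complex.I) := by
      rw [← Complex.exp_add, Complex.re_add_im]
    rw [this, Complex.ofReal_exp]
    field_simp
  rw [Wl, e, Complex.re_ofReal_mul, Complex.exp_ofReal_mul_I_re]
  congr 1
  have : (-c / (s : ℂ)).im = -(c.im / s) := by
    rw [Complex.div_ofReal_im, Complex.neg_im, neg_div]
  rw [this, Real.cos_neg]

/-- the limit of the averaged test function -/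
noncomputable def Al (s : ℝ) : ℂ := ∫ x, (Wl s x - Wl s (2 * x)) ∂muB

instance : IsFiniteMeasure muB := ⟨by
  rw [Measure.restrict_apply_univ]; exact measure_ball_lt_top⟩

theorem cos_two_le {u : ℝ} (hu : |u| ≤ 1 / 2) : u ^ 2 ≤ Real.cos u - Real.cos (2 * u) := by
  have h1 : 1 - u ^ 2 / 2 ≤ Real.cos u := Real.one_sub_sq_div_two_le_cos
  have h2 : Real.cos (2 * u) ≤ 1 - (2 * u) ^ 2 / 2 + (2 * u) ^ 4 * (5 / 96) := by
    have hb := Real.cos_bound (x := 2 * u) (by rw [abs_mul, abs_two]; linarith)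
    rw [abs_le] at hb
    have h4 : |2 * u| ^ 4 = (2 * u) ^ 4 := by
      rw [← abs_pow, abs_of_nonneg (by positivity)]
    rw [h4] at hb
    linarith [hb.2]
  have h3 : u ^ 2 ≤ 1 / 4 := by
    rw [← sq_abs]; nlinarith [abs_nonneg u]
  nlinarith [sq_nonneg u, sq_nonneg (u ^ 2)]

theorem cos_im_le {s : ℝ} (hs : 1 ≤ s) {x : ℂ} (hx : x ∈ Bh) :
    (x.im / s) ^ 2 ≤ Real.cos (x.im / s) - Real.cos ((2 * x).im / s) := by
  rw [Metric.mem_ball, dist_zero_right] at hx
  have h1 : |x.im| ≤ 1 / 2 := (Complex.abs_im_le_norm x).trans hx.le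
  have h2 : |x.im / s| ≤ 1 / 2 := by
    rw [abs_div, abs_of_pos (by linarith : 0 < s), div_le_iff₀ (by linarith)]
    nlinarith
  have h3 : (2 * x).im / s = 2 * (x.im / s) := by
    have : (2 * x).im = 2 * x.im := by simp
    rw [this]; ring
  rw [h3]
  exact cos_two_le h2

theorem Wl_continuous (s : ℝ) : Continuous (Wl s) := by
  unfold Wl
  refine continuous_const.mul ?_
  have h1 : Continuous fun c : ℂ => Complex.exp (-c / s) := by fun_prop
  refine h1.div (Complex.continuous_ofReal.comp h1.norm) fun c => ?_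
  exact_mod_cast (norm_ne_zero_iff.2 (Complex.exp_ne_zero _))

theorem Wl_integrable (s : ℝ) : Integrable (fun x => Wl s x - Wl s (2 * x)) muB := by
  refine Integrable.of_bound (C := 2) ?_ (Eventually.of_forall fun x => ?_)
  · exact ((Wl_continuous s).sub ((Wl_continuous s).comp (by fun_prop))).aestronglyMeasurable
  · calc ‖Wl s x - Wl s (2 * x)‖ ≤ ‖Wl s x‖ + ‖Wl s (2 * x)‖ := norm_sub_le _ _
      _ ≤ 2 := by linarith [norm_Wl_le s x, norm_Wl_le s (2 * x)]

theorem re_Al (s : ℝ) : (Al s).re = ∫ x, chi (s ^ 2) *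
    (Real.cos (x.im / s) - Real.cos ((2 * x).im / s)) ∂muB := by
  have h := integral_re (Wl_integrable s)
  have h' : (Al s).re = ∫ x, (Wl s x - Wl s (2 * x)).re ∂muB := by
    rw [Al]; exact h.symm
  rw [h']
  refine integral_congr_ae (Eventually.of_forall fun x => ?_)
  show (Wl s x - Wl s (2 * x)).re = _
  rw [Complex.sub_re, re_Wl, re_Wl]
  ring

theorem ae_mem_Bh : ∀ᵐ x ∂muB, x ∈ Bh :=
  (ae_restrict_iff' Metric.isOpen_ball.measurableSet).2 (Eventually.of_forall fun _ hx => hx)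

theorem chi_sq_zero {s : ℝ} (hs : 0 < s) (h : s ≤ 1 ∨ 2 ≤ s) : chi (s ^ 2) = 0 := by
  apply chi_zero
  rcases h with h | h
  · left; nlinarith
  · right; nlinarith

theorem re_Al_nonneg {s : ℝ} (hs : 0 < s) : 0 ≤ (Al s).re := by
  rw [re_Al]
  by_cases h : 1 ≤ s
  · refine integral_nonneg_of_ae ?_
    filter_upwards [ae_mem_Bh] with x hx
    exact mul_nonneg (chi_nonneg _) ((sq_nonneg _).trans (cos_im_le h hx))
  · push Not at h
    simp [chi_sq_zero hs (Or.inl h.le)]

theorem re_Al_pos {s : ℝ} (hs1 : 5 / 4 ≤ s) (hs2 : s ≤ 3 / 2) : 0 < (Al s).re := by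
  rw [re_Al]
  have hc : chi (s ^ 2) = 1 := chi_one (by nlinarith) (by nlinarith)
  have h1 : ∫ x : ℂ, (x.im / s) ^ 2 ∂muB ≤ ∫ x, chi (s ^ 2) *
    (Real.cos (x.im / s) - Real.cos ((2 * x).im / s)) ∂muB := by
    refine integral_mono_ae ?_ ?_ ?_
    · have : ContinuousOn (fun x : ℂ => (x.im / s) ^ 2) (Metric.closedBall 0 (1/2)) := by
        fun_prop
      exact (this.integrableOn_compact (isCompact_closedBall _ _)).mono_set
        Metric.ball_subset_closedBall
    · have : ContinuousOn (fun x : ℂ => chi (s ^ 2) *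
        (Real.cos (x.im / s) - Real.cos ((2 * x).im / s))) (Metric.closedBall 0 (1/2)) := by
        fun_prop
      exact (this.integrableOn_compact (isCompact_closedBall _ _)).mono_set
        Metric.ball_subset_closedBall
    · filter_upwards [ae_mem_Bh] with x hx
      rw [hc, one_mul]
      exact cos_im_le (by linarith) hx
  refine lt_of_lt_of_le ?_ h1
  rw [integral_pos_iff_support_of_nonneg (fun x => sq_nonneg _)]
  · have hsub : Metric.ball (Complex.I / 4) (1 / 8) ⊆
        (Function.support fun x : ℂ => (x.im / s) ^ 2) ∩ Bh := by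
      intro x hx
      rw [Metric.mem_ball, dist_eq_norm] at hx
      have a1 := (Complex.abs_im_le_norm (x - Complex.I / 4)).trans_lt hx
      have a2 : (x - Complex.I / 4).im = x.im - 1 / 4 := by
        simp
      rw [a2, abs_lt] at a1
      constructor
      · rw [Function.mem_support]
        have : 0 < x.im := by linarith [a1.1]
        positivity
      · rw [Metric.mem_ball, dist_zero_right]
        have : ‖x‖ ≤ ‖x - Complex.I / 4‖ + ‖Complex.I / 4‖ := by
          have := norm_add_le (x - Complex.I / 4) (Complex.I / 4)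
          rwa [sub_add_cancel] at this
        have h4 : ‖Complex.I / 4‖ = 1 / 4 := by
          rw [norm_div, Complex.norm_I, Complex.norm_ofNat]
        rw [h4] at this
        linarith
    rw [Measure.restrict_apply' Metric.isOpen_ball.measurableSet]
    refine lt_of_lt_of_le ?_ (measure_mono hsub)
    exact Metric.measure_ball_pos _ _ (by norm_num)
  · have : ContinuousOn (fun x : ℂ => (x.im / s) ^ 2) (Metric.closedBall 0 (1/2)) := by
      fun_prop
    exact (this.integrableOn_compact (isCompact_closedBall _ _)).mono_set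
        Metric.ball_subset_closedBall


/-- after the change of scale -/
theorem lam_eq {m : ℕ} (hm : 0 < m) :
    lam m = ∫ s in Ioi (0:ℝ), (s : ℂ)⁻¹ * Fc m (((m : ℝ) * s : ℝ) : ℂ) := by
  have hm' : (0:ℝ) < m := by exact_mod_cast hm
  have hmc : (m : ℂ) ≠ 0 := by exact_mod_cast hm.ne'
  have h := integral_comp_mul_left_Ioi (fun r : ℝ => (r : ℂ)⁻¹ * Fc m r) 0 hm'
  rw [mul_zero] at h
  rw [lam]
  have h2 : ∫ s in Ioi (0:ℝ), (s : ℂ)⁻¹ * Fc m (((m : ℝ) * s : ℝ) : ℂ)
      = (m : ℂ) * ∫ s in Ioi (0:ℝ), ((((m : ℝ) * s : ℝ) : ℂ))⁻¹ * Fc m (((m : ℝ) * s : ℝ) : ℂ) := by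
    rw [← integral_const_mul]
    refine integral_congr_ae (Eventually.of_forall fun s => ?_)
    simp only
    push_cast
    rw [mul_inv]
    field_simp
  rw [h2, h, Complex.real_smul]
  push_cast
  rw [← mul_assoc, mul_inv_cancel₀ hmc, one_mul]

theorem Fc_bound {m : ℕ} (y : ℂ) : ‖Fc m y‖ ≤ 2 * muB.real univ := by
  rw [Fc]
  refine norm_integral_le_of_norm_le_const (Eventually.of_forall fun x => ?_)
  calc ‖wc m (y - x) - wc m (y - 2 * x)‖ ≤ ‖wc m (y - x)‖ + ‖wc m (y - 2 * x)‖ := norm_sub_le _ _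
      _ ≤ 2 := by linarith [norm_wc_le m (y - x), norm_wc_le m (y - 2 * x)]

theorem Fc_zero {m : ℕ} (hm : 4 ≤ m) {s : ℝ} (hs : 0 < s) (h : s ∉ Icc (1 / 2 : ℝ) 3) :
    Fc m (((m : ℝ) * s : ℝ) : ℂ) = 0 := by
  have hm4 : (4:ℝ) ≤ m := by exact_mod_cast hm
  have hm0 : 0 < m := by omega
  rw [Fc]
  refine integral_eq_zero_of_ae ?_
  filter_upwards [ae_mem_Bh] with x hx
  rw [Metric.mem_ball, dist_zero_right] at hx
  have hn2 : ‖2 * x‖ ≤ 1 := by
    rw [norm_mul, Complex.norm_ofNat]; linarith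
  set y : ℂ := (((m : ℝ) * s : ℝ) : ℂ) with hy
  have hyn : ‖y‖ = m * s := by
    rw [hy, Complex.norm_real, Real.norm_eq_abs, abs_of_pos (by positivity)]
  have a1 : ‖y - x‖ ≤ ‖y‖ + ‖x‖ := norm_sub_le _ _
  have a2 : ‖y - 2 * x‖ ≤ ‖y‖ + ‖2 * x‖ := norm_sub_le _ _
  have a3 : ‖y‖ ≤ ‖y - x‖ + ‖x‖ := by
    have := norm_add_le (y - x) x; rwa [sub_add_cancel] at this
  have a4 : ‖y‖ ≤ ‖y - 2 * x‖ + ‖2 * x‖ := by
    have := norm_add_le (y - 2 * x) (2 * x); rwa [sub_add_cancel] at this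
  have h' : s < 1 / 2 ∨ 3 < s := by
    by_contra hh
    push Not at hh
    exact h ⟨hh.1, hh.2⟩
  show wc m (y - x) - wc m (y - 2 * x) = 0
  rcases h' with h' | h'
  · have : (m : ℝ) * s ≤ m * (1 / 2) := by gcongr
    rw [wc_zero hm0 (Or.inl (by linarith)), wc_zero hm0 (Or.inl (by linarith)), sub_zero]
  · have : (m : ℝ) * 3 ≤ m * s := by gcongr
    rw [wc_zero hm0 (Or.inr (by linarith)), wc_zero hm0 (Or.inr (by linarith)), sub_zero]

theorem Fc_tendsto {s : ℝ} (hs : 0 < s) :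
    Tendsto (fun m : ℕ => Fc m (((m : ℝ) * s : ℝ) : ℂ)) atTop (𝓝 (Al s)) := by
  unfold Fc Al
  refine tendsto_integral_filter_of_dominated_convergence (fun _ => 2) ?_ ?_ (integrable_const _) ?_
  · filter_upwards [eventually_gt_atTop 0] with m hm
    have hc : Continuous (wc m) := (wc_contDiff hm).continuous
    exact ((hc.comp (by fun_prop)).sub (hc.comp (by fun_prop))).aestronglyMeasurable
  · refine Eventually.of_forall fun m => Eventually.of_forall fun x => ?_
    refine (norm_sub_le _ _).trans ?_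
    linarith [norm_wc_le m ((((m : ℝ) * s : ℝ) : ℂ) - x),
      norm_wc_le m ((((m : ℝ) * s : ℝ) : ℂ) - 2 * x)]
  · refine Eventually.of_forall fun x => ?_
    exact (wc_tendsto hs x).sub (wc_tendsto hs (2 * x))

theorem Fc_continuous {m : ℕ} (hm : 0 < m) : Continuous (Fc m) := by
  have hc : Continuous (wc m) := (wc_contDiff hm).continuous
  unfold Fc
  refine continuous_of_dominated (bound := fun _ => 2) ?_ ?_ (integrable_const _) ?_
  · intro y
    exact ((hc.comp (by fun_prop)).sub (hc.comp (by fun_prop))).aestronglyMeasurable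
  · intro y
    refine Eventually.of_forall fun x => ?_
    refine (norm_sub_le _ _).trans ?_
    linarith [norm_wc_le m (y - x), norm_wc_le m (y - 2 * x)]
  · refine Eventually.of_forall fun x => ?_
    exact (hc.comp (by fun_prop)).sub (hc.comp (by fun_prop))

/-- the dominating function -/
noncomputable def dom (s : ℝ) : ℝ := indicator (Icc (1 / 2 : ℝ) 3) (fun _ => 4 * muB.real univ) s

theorem dom_bound {m : ℕ} (hm : 4 ≤ m) {s : ℝ} (hs : 0 < s) :
    ‖(s : ℂ)⁻¹ * Fc m (((m : ℝ) * s : ℝ) : ℂ)‖ ≤ dom s := by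
  rw [dom]
  by_cases h : s ∈ Icc (1 / 2 : ℝ) 3
  · rw [indicator_of_mem h, norm_mul, norm_inv, Complex.norm_real, Real.norm_eq_abs,
      abs_of_pos hs]
    have h1 : s⁻¹ ≤ 2 := by
      rw [inv_le_comm₀ hs (by norm_num)]
      norm_num at h ⊢
      linarith [h.1]
    calc s⁻¹ * ‖Fc m (((m : ℝ) * s : ℝ) : ℂ)‖ ≤ 2 * (2 * muB.real univ) :=
          mul_le_mul h1 (Fc_bound _) (norm_nonneg _) (by norm_num)
      _ = 4 * muB.real univ := by ring
  · rw [indicator_of_notMem h, Fc_zero hm hs h, mul_zero, norm_zero]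

theorem dom_integrable : IntegrableOn dom (Ioi 0) := by
  unfold dom
  refine Integrable.integrableOn ?_
  rw [integrable_indicator_iff measurableSet_Icc]
  exact integrableOn_const (by rw [Real.volume_Icc]; exact ENNReal.ofReal_lt_top.ne)

theorem lam_tendsto : Tendsto lam atTop (𝓝 (∫ s in Ioi (0:ℝ), (s : ℂ)⁻¹ * Al s)) := by
  have h : Tendsto (fun m : ℕ => ∫ s in Ioi (0:ℝ), (s : ℂ)⁻¹ * Fc m (((m : ℝ) * s : ℝ) : ℂ)) atTop
      (𝓝 (∫ s in Ioi (0:ℝ), (s : ℂ)⁻¹ * Al s)) := by
    refine tendsto_integral_filter_of_dominated_convergence dom ?_ ?_ dom_integrable ?_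
    · filter_upwards [eventually_gt_atTop 0] with m hm
      refine AEStronglyMeasurable.mul ?_ ?_
      · exact (Complex.measurable_ofReal.inv).aestronglyMeasurable
      · exact ((Fc_continuous hm).comp (by fun_prop)).aestronglyMeasurable
    · filter_upwards [eventually_ge_atTop 4] with m hm
      exact (ae_restrict_iff' measurableSet_Ioi).2 (Eventually.of_forall fun s hs =>
        dom_bound hm hs)
    · exact (ae_restrict_iff' measurableSet_Ioi).2 (Eventually.of_forall fun s hs =>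
        (Fc_tendsto hs).const_mul _)
  refine h.congr' ?_
  filter_upwards [eventually_gt_atTop 0] with m hm
  exact (lam_eq hm).symm

theorem Al_integrable : IntegrableOn (fun s : ℝ => (s : ℂ)⁻¹ * Al s) (Ioi 0) := by
  refine dom_integrable.mono' ?_ ?_
  · refine aestronglyMeasurable_of_tendsto_ae atTop
      (f := fun m : ℕ => fun s : ℝ => (s : ℂ)⁻¹ * Fc (m + 1) ((((m + 1 : ℕ) : ℝ) * s : ℝ) : ℂ)) ?_ ?_
    · intro m
      refine AEStronglyMeasurable.mul ?_ ?_
      · exact (Complex.measurable_ofReal.inv).aestronglyMeasurable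
      · exact ((Fc_continuous (Nat.succ_pos m)).comp (by fun_prop)).aestronglyMeasurable
    · refine (ae_restrict_iff' measurableSet_Ioi).2 (Eventually.of_forall fun s hs => ?_)
      exact ((tendsto_add_atTop_iff_nat 1).2 (Fc_tendsto hs)).const_mul _
  · refine (ae_restrict_iff' measurableSet_Ioi).2 (Eventually.of_forall fun s hs => ?_)
    refine le_of_tendsto ((Fc_tendsto hs).const_mul (s : ℂ)⁻¹).norm ?_
    filter_upwards [eventually_ge_atTop 4] with m hm
    exact dom_bound hm hs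

theorem lim_pos : 0 < (∫ s in Ioi (0:ℝ), (s : ℂ)⁻¹ * Al s).re := by
  have h : (∫ s in Ioi (0:ℝ), (s : ℂ)⁻¹ * Al s).re = ∫ s in Ioi (0:ℝ), s⁻¹ * (Al s).re := by
    have := integral_re Al_integrable
    refine Eq.trans this.symm ?_
    refine integral_congr_ae (Eventually.of_forall fun s => ?_)
    show ((s : ℂ)⁻¹ * Al s).re = _
    rw [← Complex.ofReal_inv, Complex.re_ofReal_mul]
  rw [h]
  have hnn : 0 ≤ᵐ[volume.restrict (Ioi (0:ℝ))] fun s : ℝ => s⁻¹ * (Al s).re := by
    refine (ae_restrict_iff' measurableSet_Ioi).2 (Eventually.of_forall fun s hs => ?_)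
    have hs' : (0:ℝ) < s := hs
    exact mul_nonneg (by positivity) (re_Al_nonneg hs)
  have hint : IntegrableOn (fun s : ℝ => s⁻¹ * (Al s).re) (Ioi 0) := by
    refine Al_integrable.re.congr (Eventually.of_forall fun s => ?_)
    show ((s : ℂ)⁻¹ * Al s).re = _
    rw [← Complex.ofReal_inv, Complex.re_ofReal_mul]
  rw [integral_pos_iff_support_of_nonneg_ae hnn hint]
  have hsub : Icc (5 / 4 : ℝ) (3 / 2) ⊆ Function.support (fun s : ℝ => s⁻¹ * (Al s).re) := by
    intro s hs
    have := re_Al_pos hs.1 hs.2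
    have hs0 : 0 < s := by linarith [hs.1]
    rw [Function.mem_support]
    positivity
  rw [Measure.restrict_apply' measurableSet_Ioi]
  refine lt_of_lt_of_le ?_ (measure_mono (subset_inter hsub ?_))
  · rw [Real.volume_Icc]
    norm_num
  · intro s hs
    have : 0 < s := by linarith [hs.1]
    exact this

/-- the multipliers stay away from zero -/
theorem lam_lower : ∃ c : ℝ, 0 < c ∧ ∃ N : ℕ, ∀ m ≥ N, c ≤ ‖lam m‖ := by
  have h := lam_tendsto.norm
  set l := ∫ s in Ioi (0:ℝ), (s : ℂ)⁻¹ * Al s with hl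
  have hpos : 0 < ‖l‖ := lt_of_lt_of_le lim_pos (Complex.re_le_norm _)
  refine ⟨‖l‖ / 2, by positivity, ?_⟩
  have := h.eventually (lt_mem_nhds (show ‖l‖ / 2 < ‖l‖ by linarith))
  obtain ⟨N, hN⟩ := eventually_atTop.1 this
  exact ⟨N, fun m hm => (hN m hm).le⟩

end Pool.Agent.N246.Riv
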