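import Pool.Agent.N246.Riv.Test

set_option autoImplicit false
open MeasureTheory Set Filter Topology
open scoped ENNReal

namespace Pool.Agent.N246.Riv

/-- the small disc -/
abbrev Bh : Set ℂ := Metric.ball (0 : ℂ) (1 / 2)

noncomputable abbrev muB : Measure ℂ := volume.restrict Bh

/-- the test function averaged against the difference of two discs -/
noncomputable def Fc (m : ℕ) (y : ℂ) : ℂ := ∫ x, (wc m (y - x) - wc m (y - 2 * x)) ∂muB

theorem rot_Bh {u : ℂ} (hu : ‖u‖ = 1) (g : ℂ → ℂ) : ∫ x, g (u * x) ∂muB = ∫ x, g x ∂muB := by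
  let a : Circle := ⟨u, by simpa [Submonoid.unitSphere] using hu⟩
  have h := ((rotation a).measurePreserving (F := ℂ)).setIntegral_preimage_emb
    ((rotation a).toHomeomorph.measurableEmbedding) g Bh
  have e : (rotation a) ⁻¹' Bh = Bh := by
    ext z
    simp only [mem_preimage, Metric.mem_ball, dist_zero_right, rotation_apply]
    rw [norm_mul, hu, one_mul]
  rw [e] at h
  simpa [rotation_apply] using h

theorem Fc_rot (m : ℕ) {u : ℂ} (hu : ‖u‖ = 1) (y : ℂ) : Fc m (u * y) = u ^ m * Fc m y := by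
  rw [Fc, ← rot_Bh hu, Fc, ← integral_const_mul]
  refine integral_congr_ae (Eventually.of_forall fun x => ?_)
  show wc m (u * y - u * x) - wc m (u * y - 2 * (u * x)) = u ^ m * (wc m (y - x) - wc m (y - 2 * x))
  rw [show u * y - u * x = u * (y - x) by ring, show u * y - 2 * (u * x) = u * (y - 2 * x) by ring,
    wc_rot m hu, wc_rot m hu]
  ring

theorem prodInt {Ω : ℝ → ℝ} (hΩm : Measurable Ω) (hΩ : Integrable Ω mu) {m : ℕ} (hm : 4 ≤ m) :
    Integrable (fun p : ℂ × ℂ => (ker Ω p.2 : ℂ) * (wc m (p.2 - p.1) - wc m (p.2 - 2 * p.1)))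
      (muB.prod volume) := by
  have hm0 : 0 < m := by omega
  have hm4 : (4:ℝ) ≤ m := by exact_mod_cast hm
  have hA : MeasurableSet {z : ℂ | 1 < ‖z‖ ∧ ‖z‖ ≤ 2 * m + 1} :=
    (measurableSet_lt measurable_const measurable_norm).inter
      (measurableSet_le measurable_norm measurable_const)
  have h1 : Integrable (indicator {z : ℂ | 1 < ‖z‖ ∧ ‖z‖ ≤ 2 * m + 1} (ker Ω)) :=
    (integrable_indicator_iff hA).2 (integrable_ker_annulus hΩm hΩ one_pos)
  have h2 : Integrable (fun _ : ℂ => (2:ℝ)) muB := by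
    refine integrableOn_const ?_
    exact measure_ball_lt_top.ne
  have h3 := h2.mul_prod h1.norm
  have hc : Continuous (wc m) := (wc_contDiff hm0).continuous
  refine h3.mono' ?_ ?_
  · refine Measurable.aestronglyMeasurable ?_
    refine Measurable.mul ?_ ?_
    · exact Complex.measurable_ofReal.comp ((measurable_ker hΩm).comp measurable_snd)
    · refine Continuous.measurable ?_
      exact (hc.comp (by fun_prop)).sub (hc.comp (by fun_prop))
  · have hB : ∀ᵐ p : ℂ × ℂ ∂(muB.prod volume), p.1 ∈ Bh := by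
      have : muB.prod (volume : Measure ℂ) = (volume.prod volume).restrict (Bh ×ˢ univ) := by
        rw [← Measure.prod_restrict, Measure.restrict_univ]
      rw [this]
      refine (ae_restrict_iff' (Metric.isOpen_ball.measurableSet.prod MeasurableSet.univ)).2 ?_
      exact Eventually.of_forall fun p hp => hp.1
    filter_upwards [hB] with p hp
    rw [Metric.mem_ball, dist_zero_right] at hp
    rw [norm_mul, Complex.norm_real]
    by_cases hy : p.2 ∈ {z : ℂ | 1 < ‖z‖ ∧ ‖z‖ ≤ 2 * m + 1}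
    · rw [indicator_of_mem hy]
      calc ‖ker Ω p.2‖ * ‖wc m (p.2 - p.1) - wc m (p.2 - 2 * p.1)‖
          ≤ ‖ker Ω p.2‖ * (1 + 1) := by
            refine mul_le_mul_of_nonneg_left ?_ (norm_nonneg _)
            exact (norm_sub_le _ _).trans (add_le_add (norm_wc_le _ _) (norm_wc_le _ _))
        _ = 2 * ‖ker Ω p.2‖ := by ring
    · rw [indicator_of_notMem hy, norm_zero, mul_zero]
      have hz : wc m (p.2 - p.1) - wc m (p.2 - 2 * p.1) = 0 := by
        have hn2 : ‖2 * p.1‖ ≤ 1 := by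
          rw [norm_mul, Complex.norm_ofNat]; linarith
        have a1 : ‖p.2 - p.1‖ ≤ ‖p.2‖ + ‖p.1‖ := norm_sub_le _ _
        have a2 : ‖p.2 - 2 * p.1‖ ≤ ‖p.2‖ + ‖2 * p.1‖ := norm_sub_le _ _
        have a3 : ‖p.2‖ ≤ ‖p.2 - p.1‖ + ‖p.1‖ := by
          have := norm_add_le (p.2 - p.1) p.1; rwa [sub_add_cancel] at this
        have a4 : ‖p.2‖ ≤ ‖p.2 - 2 * p.1‖ + ‖2 * p.1‖ := by
          have := norm_add_le (p.2 - 2 * p.1) (2 * p.1); rwa [sub_add_cancel] at this
        have hy' : ‖p.2‖ ≤ 1 ∨ 2 * m + 1 < ‖p.2‖ := by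
          by_contra hh
          push Not at hh
          exact hy ⟨hh.1, hh.2⟩
        rcases hy' with hy' | hy'
        · rw [wc_zero hm0 (Or.inl (by linarith)), wc_zero hm0 (Or.inl (by linarith)), sub_zero]
        · rw [wc_zero hm0 (Or.inr (by linarith)), wc_zero hm0 (Or.inr (by linarith)), sub_zero]
      rw [hz, norm_zero, mul_zero]

/-- the multiplier -/
noncomputable def lam (m : ℕ) : ℂ := ∫ r in Ioi (0:ℝ), (r : ℂ)⁻¹ * Fc m r

theorem pair_one {Ω : ℝ → ℝ} (m : ℕ) :
    ∫ y, (ker Ω y : ℂ) * Fc m y = lam m * ∫ θ, (Ω θ : ℂ) * Complex.exp (m * θ * Complex.I) ∂mu := by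
  rw [lam]
  refine integral_ang (fun θ => (Ω θ : ℂ) * Complex.exp (m * θ * Complex.I))
    (fun r => (r : ℂ)⁻¹ * Fc m r) _ ?_
  intro r θ hr hθ
  have h1 : Fc m (pt r θ) = Complex.exp (m * θ * Complex.I) * Fc m r := by
    have : pt r θ = Complex.exp (θ * Complex.I) * r := by rw [pt]; ring
    rw [this, Fc_rot m (Complex.norm_exp_ofReal_mul_I θ), ← Complex.exp_nat_mul]
    congr 2
    ring
  have hr' : (r : ℂ) ≠ 0 := by exact_mod_cast hr.ne'
  rw [h1, ker, arg_pt hr hθ, norm_pt hr]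
  push_cast
  field_simp

theorem pair {Ω : ℝ → ℝ} (hΩm : Measurable Ω) (hΩ : Integrable Ω mu) (J : ℕ) :
    ∫ x, (pvg Ω (tf J) x - pvg Ω (tf J) (2 * x)) ∂muB
      = ∑ j ∈ Finset.range J,
        (lam (fr j) * ∫ θ, (Ω θ : ℂ) * Complex.exp (fr j * θ * Complex.I) ∂mu).re := by
  have hfr : ∀ j, 4 ≤ fr j := fr_ge
  have hB : ∀ᵐ x ∂muB, x ∈ Bh := (ae_restrict_iff' Metric.isOpen_ball.measurableSet).2
    (Eventually.of_forall fun x hx => hx)
  have hall : ∀ j ∈ Finset.range J, ∀ᵐ x ∂muB, Integrable (fun y => (ker Ω y : ℂ) *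
        (wc (fr j) (y - x) - wc (fr j) (y - 2 * x))) :=
    fun j _ => (prodInt hΩm hΩ (hfr j)).prod_right_ae
  have hall' := (Finset.eventually_all (Finset.range J)).2 hall
  -- the integrand
  have h1 : ∀ᵐ x ∂muB, pvg Ω (tf J) x - pvg Ω (tf J) (2 * x)
      = ∑ j ∈ Finset.range J, ∫ y, ((ker Ω y : ℂ) *
        (wc (fr j) (y - x) - wc (fr j) (y - 2 * x))).re := by
    filter_upwards [hB, hall'] with x hx hint
    rw [Metric.mem_ball, dist_zero_right] at hx
    obtain ⟨L, hL⟩ := tf_lipschitz J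
    have z1 : tf J x = 0 := tf_zero_near (by linarith)
    have z2 : tf J (2 * x) = 0 := tf_zero_near (by
      rw [norm_mul, Complex.norm_ofNat]; linarith)
    have i1 := pv_integrable hΩm hΩ hL (R := 2 * fr J) (fun z hz => tf_zero_far hz)
      (abs_tf_le J) x
    have i2 := pv_integrable hΩm hΩ hL (R := 2 * fr J) (fun z hz => tf_zero_far hz)
      (abs_tf_le J) (2 * x)
    have hsum : ∑ j ∈ Finset.range J, ∫ y, ((ker Ω y : ℂ) *
        (wc (fr j) (y - x) - wc (fr j) (y - 2 * x))).re = ∫ y, ∑ j ∈ Finset.range J,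
        ((ker Ω y : ℂ) * (wc (fr j) (y - x) - wc (fr j) (y - 2 * x))).re :=
      (integral_finsetSum _ (fun j hj => (hint j hj).re)).symm
    rw [hsum, pvg, pvg, ← integral_sub i1 i2]
    refine integral_congr_ae (Eventually.of_forall fun y => ?_)
    simp only [z1, z2, ite_self, sub_zero]
    rw [← mul_sub, tf, tf, ← Finset.sum_sub_distrib, Finset.mul_sum]
    refine Finset.sum_congr rfl fun j _ => ?_
    rw [Complex.re_ofReal_mul, Complex.sub_re, neg_sub, neg_sub]
  rw [integral_congr_ae h1]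
  have h2 : ∀ j ∈ Finset.range J, Integrable (fun x => ∫ y, ((ker Ω y : ℂ) *
        (wc (fr j) (y - x) - wc (fr j) (y - 2 * x))).re) muB := by
    intro j _
    exact (prodInt hΩm hΩ (hfr j)).re.integral_prod_left
  rw [integral_finsetSum _ h2]
  refine Finset.sum_congr rfl fun j _ => ?_
  have h3 := prodInt hΩm hΩ (hfr j)
  rw [← pair_one]
  have h4 : ∫ y, (ker Ω y : ℂ) * Fc (fr j) y = ∫ x, (∫ y, (ker Ω y : ℂ) *
        (wc (fr j) (y - x) - wc (fr j) (y - 2 * x))) ∂muB := by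
    rw [integral_integral_swap h3]
    refine integral_congr_ae (Eventually.of_forall fun y => ?_)
    show _ = ∫ x, (ker Ω y : ℂ) * (wc (fr j) (y - x) - wc (fr j) (y - 2 * x)) ∂muB
    rw [integral_const_mul]
    rfl
  rw [h4, ← integral_prod _ h3, ← integral_prod (fun p : ℂ × ℂ => ((ker Ω p.2 : ℂ) *
        (wc (fr j) (p.2 - p.1) - wc (fr j) (p.2 - 2 * p.1))).re) h3.re]
  exact integral_re h3

end Pool.Agent.N246.Riv
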