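import Mathlib

set_option autoImplicit false
open MeasureTheory Set Filter Topology
open scoped ENNReal

namespace Pool.Agent.N246.Riv

/-- Lebesgue measure on `(-π, π)`. -/
noncomputable abbrev mu : Measure ℝ := volume.restrict (Ioo (-Real.pi) Real.pi)

/-- point with polar coordinates -/
noncomputable def pt (r θ : ℝ) : ℂ := (r : ℂ) * Complex.exp (θ * Complex.I)

theorem pt_eq (p : ℝ × ℝ) : Complex.polarCoord.symm p = pt p.1 p.2 := by
  rw [Complex.polarCoord_symm_apply, pt, Complex.exp_mul_I]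
  push_cast
  ring

theorem norm_pt {r : ℝ} (hr : 0 < r) (θ : ℝ) : ‖pt r θ‖ = r := by
  rw [pt, norm_mul, Complex.norm_exp_ofReal_mul_I, mul_one, Complex.norm_real, Real.norm_eq_abs,
    abs_of_pos hr]

theorem arg_pt {r θ : ℝ} (hr : 0 < r) (hθ : θ ∈ Ioo (-Real.pi) Real.pi) :
    (pt r θ).arg = θ := by
  rw [pt, Complex.exp_mul_I]
  exact Complex.arg_mul_cos_add_sin_mul_I hr ⟨hθ.1, hθ.2.le⟩

/-- the angular part times a radial function is integrable on the plane -/
theorem integrable_ang (Ω : ℝ → ℝ) (h : ℝ → ℝ) (hΩm : Measurable Ω) (hhm : Measurable h)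
    (hΩ : Integrable Ω mu) (hh : IntegrableOn (fun r => r * h r) (Ioi 0)) :
    Integrable (fun z : ℂ => Ω z.arg * h ‖z‖) := by
  refine ⟨((hΩm.comp Complex.measurable_arg).mul
    (hhm.comp measurable_norm)).aestronglyMeasurable, ?_⟩
  rw [HasFiniteIntegral, ← Complex.lintegral_comp_polarCoord_symm]
  have e1 : ∀ p ∈ polarCoord.target, ENNReal.ofReal p.1 •
      ‖Ω (Complex.polarCoord.symm p).arg * h ‖Complex.polarCoord.symm p‖‖ₑ
      = ‖p.1 * h p.1‖ₑ * ‖Ω p.2‖ₑ := by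
    intro p hp
    have hp1 : 0 < p.1 := hp.1
    rw [pt_eq, arg_pt hp1 hp.2, norm_pt hp1, smul_eq_mul, enorm_mul, enorm_mul,
      Real.enorm_eq_ofReal hp1.le]
    ring
  rw [setLIntegral_congr_fun polarCoord.open_target.measurableSet e1, polarCoord_target,
    Measure.volume_eq_prod, ← Measure.prod_restrict,
    lintegral_prod_mul (f := fun r => ‖r * h r‖ₑ) (g := fun θ => ‖Ω θ‖ₑ) (by fun_prop) (by fun_prop)]
  exact ENNReal.mul_lt_top hh.2 hΩ.2

/-- polar coordinates -/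
theorem integral_ang (Ω : ℝ → ℂ) (h : ℝ → ℂ) (G : ℂ → ℂ)
    (hG : ∀ r θ : ℝ, 0 < r → θ ∈ Ioo (-Real.pi) Real.pi → (r : ℂ) * G (pt r θ) = h r * Ω θ) :
    ∫ z, G z = (∫ r in Ioi 0, h r) * ∫ θ, Ω θ ∂mu := by
  rw [← Complex.integral_comp_polarCoord_symm]
  have e1 : ∀ p ∈ polarCoord.target, p.1 • G (Complex.polarCoord.symm p) = h p.1 * Ω p.2 := by
    intro p hp
    rw [pt_eq, Complex.real_smul]
    exact hG p.1 p.2 hp.1 hp.2
  rw [setIntegral_congr_fun polarCoord.open_target.measurableSet e1, polarCoord_target,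
    Measure.volume_eq_prod, setIntegral_prod_mul]

end Pool.Agent.N246.Riv
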