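import Pool.Agent.N246.Riv.Polar

set_option autoImplicit false
open MeasureTheory Set Filter Topology
open scoped ENNReal

namespace Pool.Agent.N246.Riv

/-- the kernel with angular part `Ω` -/
noncomputable def ker (Ω : ℝ → ℝ) (z : ℂ) : ℝ := Ω z.arg / ‖z‖ ^ 2

theorem measurable_ker {Ω : ℝ → ℝ} (hΩ : Measurable Ω) : Measurable (ker Ω) :=
  (hΩ.comp Complex.measurable_arg).div (measurable_norm.pow_const 2)

/-- integrability of the kernel on annuli -/
theorem integrable_ker_annulus {Ω : ℝ → ℝ} (hΩm : Measurable Ω) (hΩ : Integrable Ω mu)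
    {a b : ℝ} (ha : 0 < a) :
    IntegrableOn (ker Ω) {z : ℂ | a < ‖z‖ ∧ ‖z‖ ≤ b} := by
  have hms : MeasurableSet {z : ℂ | a < ‖z‖ ∧ ‖z‖ ≤ b} :=
    (measurableSet_lt measurable_const measurable_norm).inter
      (measurableSet_le measurable_norm measurable_const)
  rw [← integrable_indicator_iff hms]
  have h := integrable_ang Ω (fun r => if a < r ∧ r ≤ b then 1 / r ^ 2 else 0) hΩm ?_ hΩ ?_
  · refine h.congr (Eventually.of_forall fun z => ?_)
    by_cases hz : a < ‖z‖ ∧ ‖z‖ ≤ b
    · simp only [hz, and_self, if_true]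
      rw [indicator_of_mem (show z ∈ {z : ℂ | a < ‖z‖ ∧ ‖z‖ ≤ b} from hz)]
      rw [ker]; ring
    · simp only [hz, if_false]
      rw [indicator_of_notMem (show z ∉ {z : ℂ | a < ‖z‖ ∧ ‖z‖ ≤ b} from hz)]
      simp
  · refine Measurable.ite ?_ (by fun_prop) measurable_const
    exact (measurableSet_lt measurable_const measurable_id).inter
      (measurableSet_le measurable_id measurable_const)
  · have hm : MeasurableSet {r : ℝ | a < r ∧ r ≤ b} :=
      (measurableSet_lt measurable_const measurable_id).inter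
      (measurableSet_le measurable_id measurable_const)
    have h1 : IntegrableOn (fun _ : ℝ => (1 / a : ℝ)) {r : ℝ | a < r ∧ r ≤ b} := by
      refine integrableOn_const ?_
      refine ne_of_lt (lt_of_le_of_lt (measure_mono (t := Icc a b) ?_) ?_)
      · intro r hr; exact ⟨hr.1.le, hr.2⟩
      · rw [Real.volume_Icc]; exact ENNReal.ofReal_lt_top
    have h2 := (integrable_indicator_iff hm).2 h1
    refine (h2.integrableOn (s := Ioi 0)).mono' ?_ ?_
    · refine Measurable.aestronglyMeasurable ?_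
      refine measurable_id.mul (Measurable.ite ?_ (by fun_prop) measurable_const)
      exact hm
    · refine Eventually.of_forall fun r => ?_
      by_cases hr : a < r ∧ r ≤ b
      · rw [indicator_of_mem (show r ∈ {r : ℝ | a < r ∧ r ≤ b} from hr)]
        simp only [hr, and_self, if_true]
        have hr0 : 0 < r := ha.trans hr.1
        rw [Real.norm_eq_abs, abs_of_pos (by positivity)]
        rw [show r * (1 / r ^ 2) = 1 / r by field_simp]
        exact one_div_le_one_div_of_le ha hr.1.le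
      · rw [indicator_of_notMem (show r ∉ {r : ℝ | a < r ∧ r ≤ b} from hr)]
        simp [hr]

/-- the kernel has mean zero on annuli -/
theorem integral_ker_annulus {Ω : ℝ → ℝ} (h0 : ∫ θ, Ω θ ∂mu = 0)
    {a b : ℝ} (ha : 0 ≤ a) :
    ∫ z in {z : ℂ | a < ‖z‖ ∧ ‖z‖ ≤ b}, ker Ω z = 0 := by
  have hms : MeasurableSet {z : ℂ | a < ‖z‖ ∧ ‖z‖ ≤ b} :=
    (measurableSet_lt measurable_const measurable_norm).inter
      (measurableSet_le measurable_norm measurable_const)
  rw [← integral_indicator hms]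
  have h := integral_ang (fun θ => (Ω θ : ℂ))
    (fun r => if a < r ∧ r ≤ b then ((1 / r : ℝ) : ℂ) else 0)
    (fun z => ((indicator {z : ℂ | a < ‖z‖ ∧ ‖z‖ ≤ b} (ker Ω) z : ℝ) : ℂ)) ?_
  · have e : ∫ θ, (Ω θ : ℂ) ∂mu = 0 := by
      rw [integral_complex_ofReal, h0]; simp
    rw [e, mul_zero, integral_complex_ofReal] at h
    exact_mod_cast h
  · intro r θ hr hθ
    by_cases hz : a < r ∧ r ≤ b
    · rw [indicator_of_mem (show pt r θ ∈ {z : ℂ | a < ‖z‖ ∧ ‖z‖ ≤ b} by
        rw [mem_ofPred_eq, norm_pt hr]; exact hz)]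
      simp only [hz, and_self, if_true]
      rw [ker, arg_pt hr hθ, norm_pt hr]
      have : (r : ℂ) ≠ 0 := by exact_mod_cast hr.ne'
      push_cast
      field_simp
    · rw [indicator_of_notMem (show pt r θ ∉ {z : ℂ | a < ‖z‖ ∧ ‖z‖ ≤ b} by
        rw [mem_ofPred_eq, norm_pt hr]; exact hz)]
      simp [hz]

/-- the principal value, for Lipschitz `f` of compact support -/
noncomputable def pvg (Ω : ℝ → ℝ) (f : ℂ → ℝ) (x : ℂ) : ℝ :=
  ∫ y, ker Ω y * (f (x - y) - if ‖y‖ ≤ 1 then f x else 0)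

theorem pv_integrable {Ω : ℝ → ℝ} (hΩm : Measurable Ω) (hΩ : Integrable Ω mu)
    {f : ℂ → ℝ} {L : NNReal} (hL : LipschitzWith L f) {R : ℝ} (hR : ∀ z, R < ‖z‖ → f z = 0)
    {M : ℝ} (hM : ∀ z, |f z| ≤ M) (x : ℂ) :
    Integrable (fun y => ker Ω y * (f (x - y) - if ‖y‖ ≤ 1 then f x else 0)) := by
  have hM0 : 0 ≤ M := (abs_nonneg _).trans (hM 0)
  set R' : ℝ := max (R + ‖x‖) 1 with hR'
  set C : ℝ := max (L : ℝ) M with hC
  have hC0 : 0 ≤ C := le_max_of_le_right hM0
  have h := integrable_ang Ω (fun r => if r ≤ R' then C / r else 0) hΩm ?_ hΩ ?_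
  · refine h.norm.mono' ?_ (Eventually.of_forall fun y => ?_)
    · refine Measurable.aestronglyMeasurable ?_
      refine (measurable_ker hΩm).mul (Measurable.sub ?_ ?_)
      · exact hL.continuous.measurable.comp (measurable_const.sub measurable_id)
      · exact Measurable.ite (measurableSet_le measurable_norm measurable_const)
          measurable_const measurable_const
    · have key : |f (x - y) - if ‖y‖ ≤ 1 then f x else 0|
          ≤ if ‖y‖ ≤ R' then C * ‖y‖ else 0 := by
        by_cases h1 : ‖y‖ ≤ 1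
        · rw [if_pos h1, if_pos (h1.trans (le_max_right _ _))]
          have := hL.dist_le_mul (x - y) x
          rw [Real.dist_eq, dist_eq_norm] at this
          refine this.trans ?_
          rw [show x - y - x = -y by ring, norm_neg]
          exact mul_le_mul_of_nonneg_right (le_max_left _ _) (norm_nonneg _)
        · rw [if_neg h1, sub_zero]
          push Not at h1
          by_cases h2 : ‖y‖ ≤ R'
          · rw [if_pos h2]
            calc |f (x - y)| ≤ M := hM _
              _ ≤ C := le_max_right _ _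
              _ ≤ C * ‖y‖ := le_mul_of_one_le_right hC0 h1.le
          · rw [if_neg h2]
            push Not at h2
            rw [hR (x - y), abs_zero]
            have h3 : R + ‖x‖ < ‖y‖ := (le_max_left _ _).trans_lt h2
            have h4 : ‖y‖ ≤ ‖x - y‖ + ‖x‖ := by
              have := norm_sub_le x (x - y)
              rw [show x - (x - y) = y by ring] at this
              linarith
            linarith
      rw [norm_mul, Real.norm_eq_abs, Real.norm_eq_abs, norm_mul, Real.norm_eq_abs,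
        Real.norm_eq_abs, ker, abs_div, abs_of_nonneg (by positivity : (0:ℝ) ≤ ‖y‖ ^ 2)]
      by_cases h2 : ‖y‖ ≤ R'
      · rw [if_pos h2] at key ⊢
        rw [abs_of_nonneg (by positivity : (0:ℝ) ≤ C / ‖y‖)]
        by_cases hy : ‖y‖ = 0
        · rw [hy] at key ⊢
          simp
        · have hy' : 0 < ‖y‖ := lt_of_le_of_ne (norm_nonneg _) (Ne.symm hy)
          calc |Ω y.arg| / ‖y‖ ^ 2 * |f (x - y) - if ‖y‖ ≤ 1 then f x else 0|
              ≤ |Ω y.arg| / ‖y‖ ^ 2 * (C * ‖y‖) := by gcongr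
            _ = |Ω y.arg| * (C / ‖y‖) := by field_simp
      · rw [if_neg h2] at key ⊢
        have : |f (x - y) - if ‖y‖ ≤ 1 then f x else 0| = 0 := le_antisymm key (abs_nonneg _)
        rw [this]; simp
  · refine Measurable.ite (measurableSet_le measurable_id measurable_const) ?_ measurable_const
    fun_prop
  · have h1 : IntegrableOn (fun _ : ℝ => C) (Ioc 0 R') := by
      refine integrableOn_const ?_
      rw [Real.volume_Ioc]; exact ENNReal.ofReal_lt_top.ne
    have h2 := (integrable_indicator_iff measurableSet_Ioc).2 h1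
    refine (h2.integrableOn (s := Ioi 0)).mono' ?_ ?_
    · refine Measurable.aestronglyMeasurable ?_
      refine measurable_id.mul (Measurable.ite
        (measurableSet_le measurable_id measurable_const) ?_ measurable_const)
      fun_prop
    · refine (ae_restrict_iff' measurableSet_Ioi).2 (Eventually.of_forall fun r hr => ?_)
      have hr : 0 < r := hr
      by_cases hr2 : r ≤ R'
      · rw [indicator_of_mem (show r ∈ Ioc 0 R' from ⟨hr, hr2⟩), if_pos hr2]
        rw [show r * (C / r) = C by field_simp, Real.norm_eq_abs, abs_of_nonneg hC0]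
      · rw [if_neg hr2, mul_zero, norm_zero]
        exact indicator_nonneg (fun _ _ => hC0) _

theorem pv_tendsto {Ω : ℝ → ℝ} (hΩm : Measurable Ω) (hΩ : Integrable Ω mu)
    (h0 : ∫ θ, Ω θ ∂mu = 0)
    {f : ℂ → ℝ} {L : NNReal} (hL : LipschitzWith L f) {R : ℝ} (hR : ∀ z, R < ‖z‖ → f z = 0)
    {M : ℝ} (hM : ∀ z, |f z| ≤ M) (x : ℂ) :
    Tendsto (fun ε : ℝ => ∫ y in {y : ℂ | ε < ‖y‖}, ker Ω y * f (x - y)) (𝓝[>] 0)
      (𝓝 (pvg Ω f x)) := by
  have hG := pv_integrable hΩm hΩ hL hR hM x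
  set G : ℂ → ℝ := fun y => ker Ω y * (f (x - y) - if ‖y‖ ≤ 1 then f x else 0) with hGdef
  have hms : ∀ ε : ℝ, MeasurableSet {y : ℂ | ε < ‖y‖} := fun ε =>
    measurableSet_lt measurable_const measurable_norm
  have hms2 : ∀ ε : ℝ, MeasurableSet {z : ℂ | ε < ‖z‖ ∧ ‖z‖ ≤ 1} := fun ε =>
    (hms ε).inter (measurableSet_le measurable_norm measurable_const)
  -- the truncated integral
  have h1 : ∀ ε ∈ Ioo (0:ℝ) 1, ∫ y in {y : ℂ | ε < ‖y‖}, ker Ω y * f (x - y)
      = ∫ y in {y : ℂ | ε < ‖y‖}, G y := by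
    intro ε hε
    have hK : IntegrableOn (fun y => ker Ω y * f x) {z : ℂ | ε < ‖z‖ ∧ ‖z‖ ≤ 1} :=
      (integrable_ker_annulus hΩm hΩ hε.1).mul_const _
    have hK' : Integrable (indicator {z : ℂ | ε < ‖z‖ ∧ ‖z‖ ≤ 1} (fun y => ker Ω y * f x)) :=
      (integrable_indicator_iff (hms2 ε)).2 hK
    have e1 : ∀ y ∈ {y : ℂ | ε < ‖y‖}, ker Ω y * f (x - y)
        = G y + indicator {z : ℂ | ε < ‖z‖ ∧ ‖z‖ ≤ 1} (fun y => ker Ω y * f x) y := by
      intro y hy
      by_cases h : ‖y‖ ≤ 1
      · rw [indicator_of_mem (show y ∈ {z : ℂ | ε < ‖z‖ ∧ ‖z‖ ≤ 1} from ⟨hy, h⟩)]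
        simp only [hGdef, if_pos h]; ring
      · rw [indicator_of_notMem (show y ∉ {z : ℂ | ε < ‖z‖ ∧ ‖z‖ ≤ 1} from fun hh => h hh.2)]
        simp only [hGdef, if_neg h]; ring
    rw [setIntegral_congr_fun (hms ε) e1, integral_add hG.integrableOn hK'.integrableOn,
      setIntegral_indicator (hms2 ε)]
    have e2 : {y : ℂ | ε < ‖y‖} ∩ {z : ℂ | ε < ‖z‖ ∧ ‖z‖ ≤ 1} = {z : ℂ | ε < ‖z‖ ∧ ‖z‖ ≤ 1} := by
      ext z; constructor
      · intro h; exact h.2
      · intro h; exact ⟨h.1, h⟩
    rw [e2, integral_mul_const, integral_ker_annulus h0 hε.1.le, zero_mul, add_zero]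
  have h2 : Tendsto (fun ε : ℝ => ∫ y in {y : ℂ | ε < ‖y‖}, G y) (𝓝[>] 0) (𝓝 (∫ y, G y)) := by
    have e : ∀ ε : ℝ, ∫ y in {y : ℂ | ε < ‖y‖}, G y
        = ∫ y, indicator {y : ℂ | ε < ‖y‖} G y := fun ε => (integral_indicator (hms ε)).symm
    simp_rw [e]
    refine tendsto_integral_filter_of_dominated_convergence (fun y => ‖G y‖) ?_ ?_ hG.norm ?_
    · exact Eventually.of_forall fun ε => hG.aestronglyMeasurable.indicator (hms ε)
    · exact Eventually.of_forall fun ε => Eventually.of_forall fun y =>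
        norm_indicator_le_norm_self _ _
    · have hz : ∀ᵐ y : ℂ, y ≠ 0 := by
        rw [ae_iff]; simp
      filter_upwards [hz] with y hy
      refine tendsto_const_nhds.congr' ?_
      have : Ioo (0:ℝ) ‖y‖ ∈ 𝓝[>] (0:ℝ) := Ioo_mem_nhdsGT (norm_pos_iff.2 hy)
      filter_upwards [this] with ε hε
      rw [indicator_of_mem (show y ∈ {y : ℂ | ε < ‖y‖} from hε.2)]
  refine h2.congr' ?_
  filter_upwards [Ioo_mem_nhdsGT (zero_lt_one : (0:ℝ) < 1)] with ε hε
  exact (h1 ε hε).symm

end Pool.Agent.N246.Riv
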