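import Pool.Agent.N246.Riv.Lim

set_option autoImplicit false
open MeasureTheory Set Filter Topology
open scoped ENNReal

namespace Pool.Agent.N246.Riv

/-- the kernel integrates to zero over radial sets -/
theorem integral_ker_radial {Ω : ℝ → ℝ} (h0 : ∫ θ, Ω θ ∂mu = 0) {T : Set ℝ}
    (hT : MeasurableSet T) : ∫ z in {z : ℂ | ‖z‖ ∈ T}, ker Ω z = 0 := by
  have hms : MeasurableSet {z : ℂ | ‖z‖ ∈ T} := measurable_norm hT
  rw [← integral_indicator hms]
  have h := integral_ang (fun θ => (Ω θ : ℂ))
    (fun r => indicator T (fun r : ℝ => ((1 / r : ℝ) : ℂ)) r)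
    (fun z => ((indicator {z : ℂ | ‖z‖ ∈ T} (ker Ω) z : ℝ) : ℂ)) ?_
  · have e : ∫ θ, (Ω θ : ℂ) ∂mu = 0 := by
      rw [integral_complex_ofReal, h0]; simp
    rw [e, mul_zero, integral_complex_ofReal] at h
    exact_mod_cast h
  · intro r θ hr hθ
    by_cases hz : r ∈ T
    · rw [indicator_of_mem (show pt r θ ∈ {z : ℂ | ‖z‖ ∈ T} by
        rw [mem_ofPred_eq, norm_pt hr]; exact hz), indicator_of_mem hz]
      rw [ker, arg_pt hr hθ, norm_pt hr]
      have : (r : ℂ) ≠ 0 := by exact_mod_cast hr.ne'
      push_cast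
      field_simp
    · rw [indicator_of_notMem (show pt r θ ∉ {z : ℂ | ‖z‖ ∈ T} by
        rw [mem_ofPred_eq, norm_pt hr]; exact hz), indicator_of_notMem hz]
      simp

/-- the kernel is square integrable on annuli -/
theorem integrable_ker_sq {Ω : ℝ → ℝ} (hΩm : Measurable Ω)
    (hΩ : Integrable (fun θ => Ω θ ^ 2) mu) :
    IntegrableOn (fun z => ker Ω z ^ 2) {z : ℂ | 1 ≤ ‖z‖ ∧ ‖z‖ ≤ 2} := by
  have hms : MeasurableSet {z : ℂ | 1 ≤ ‖z‖ ∧ ‖z‖ ≤ 2} :=
    (measurableSet_le measurable_const measurable_norm).inter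
      (measurableSet_le measurable_norm measurable_const)
  rw [← integrable_indicator_iff hms]
  have hT : MeasurableSet (Icc (1:ℝ) 2) := measurableSet_Icc
  have h := integrable_ang (fun θ => Ω θ ^ 2) (indicator (Icc (1:ℝ) 2) (fun r => 1 / r ^ 4))
    (hΩm.pow_const 2) ?_ hΩ ?_
  · refine h.congr (Eventually.of_forall fun z => ?_)
    simp only
    by_cases hz : ‖z‖ ∈ Icc (1:ℝ) 2
    · rw [indicator_of_mem hz, indicator_of_mem (show z ∈ {z : ℂ | 1 ≤ ‖z‖ ∧ ‖z‖ ≤ 2} from hz)]
      rw [ker, div_pow]; ring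
    · rw [indicator_of_notMem hz,
        indicator_of_notMem (show z ∉ {z : ℂ | 1 ≤ ‖z‖ ∧ ‖z‖ ≤ 2} from hz), mul_zero]
  · exact Measurable.indicator (by fun_prop) hT
  · have h1 : IntegrableOn (fun _ : ℝ => (1 : ℝ)) (Icc (1:ℝ) 2) :=
      integrableOn_const (by rw [Real.volume_Icc]; exact ENNReal.ofReal_lt_top.ne)
    have h2 := (integrable_indicator_iff hT).2 h1
    refine (h2.integrableOn (s := Ioi 0)).mono' ?_ ?_
    · exact (measurable_id.mul (Measurable.indicator (by fun_prop) hT)).aestronglyMeasurable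
    · refine Eventually.of_forall fun r => ?_
      by_cases hr : r ∈ Icc (1:ℝ) 2
      · rw [indicator_of_mem hr, indicator_of_mem hr]
        have hr0 : 0 < r := by linarith [hr.1]
        rw [Real.norm_eq_abs, abs_of_pos (by positivity)]
        rw [show r * (1 / r ^ 4) = 1 / r ^ 3 by field_simp]
        rw [div_le_one (by positivity)]
        exact one_le_pow₀ hr.1
      · rw [indicator_of_notMem hr, indicator_of_notMem hr, mul_zero, norm_zero]

/-- The bound for a function from the mean oscillation on the unit disc. -/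
theorem osc_bound {g : ℂ → ℝ} (hg : IntegrableOn g (Metric.ball 0 1)) {K : ℝ}
    (hK : (⨍ x in Metric.ball (0:ℂ) 1, |g x - ⨍ y in Metric.ball (0:ℂ) 1, g y|) ≤ K) :
    |∫ x, (g x - g (2 * x)) ∂muB| ≤ 2 * (volume.real (Metric.ball (0:ℂ) 1) * K) := by
  set B1 : Set ℂ := Metric.ball (0:ℂ) 1 with hB1
  set a : ℝ := ⨍ y in B1, g y with ha
  have hmB1 : MeasurableSet B1 := Metric.isOpen_ball.measurableSet
  have hfin : volume B1 ≠ ∞ := measure_ball_lt_top.ne
  have hV : 0 < volume.real B1 :=
    ENNReal.toReal_pos (Metric.measure_ball_pos _ _ one_pos).ne' hfin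
  have hga : IntegrableOn (fun x => |g x - a|) B1 := (hg.sub (integrableOn_const hfin)).abs
  have hI : ∫ x in B1, |g x - a| ≤ volume.real B1 * K := by
    rw [setAverage_eq, smul_eq_mul] at hK
    have := mul_le_mul_of_nonneg_left hK hV.le
    rwa [← mul_assoc, mul_inv_cancel₀ hV.ne', one_mul] at this
  have hInn : 0 ≤ ∫ x in B1, |g x - a| := integral_nonneg fun _ => abs_nonneg _
  have hsub : Bh ⊆ B1 := Metric.ball_subset_ball (by norm_num)
  -- the first part
  have h1 : ∫ x in Bh, |g x - a| ≤ ∫ x in B1, |g x - a| :=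
    setIntegral_mono_set hga (Eventually.of_forall fun _ => abs_nonneg _)
      (Eventually.of_forall hsub)
  -- the second part
  have hind : ∀ x : ℂ, indicator B1 (fun x => |g x - a|) ((2:ℝ) • x)
      = indicator Bh (fun x => |g (2 * x) - a|) x := by
    intro x
    have h2 : (2:ℝ) • x = 2 * x := by rw [Complex.real_smul]; norm_num
    by_cases hx : x ∈ Bh
    · rw [indicator_of_mem hx, h2, indicator_of_mem]
      rw [hB1, Metric.mem_ball, dist_zero_right, norm_mul, Complex.norm_ofNat]
      rw [Metric.mem_ball, dist_zero_right] at hx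
      linarith
    · rw [indicator_of_notMem hx, h2, indicator_of_notMem]
      intro h3
      rw [hB1, Metric.mem_ball, dist_zero_right, norm_mul, Complex.norm_ofNat] at h3
      apply hx
      rw [Metric.mem_ball, dist_zero_right]
      linarith
  have hmBh : MeasurableSet Bh := Metric.isOpen_ball.measurableSet
  have h2i : IntegrableOn (fun x => |g (2 * x) - a|) Bh := by
    rw [← integrable_indicator_iff hmBh]
    have : Integrable (fun x : ℂ => indicator B1 (fun x => |g x - a|) ((2:ℝ) • x)) :=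
      (integrable_comp_smul_iff volume _ (by norm_num)).2
        ((integrable_indicator_iff hmB1).2 hga)
    exact this.congr (Eventually.of_forall hind)
  have h2 : ∫ x in Bh, |g (2 * x) - a| ≤ ∫ x in B1, |g x - a| := by
    rw [← integral_indicator hmBh, ← integral_indicator hmB1]
    have h3 : ∫ x, indicator Bh (fun x => |g (2 * x) - a|) x
        = ∫ x : ℂ, indicator B1 (fun x => |g x - a|) ((2:ℝ) • x) :=
      integral_congr_ae (Eventually.of_forall fun x => (hind x).symm)
    rw [h3, Measure.integral_comp_smul, Complex.finrank_real_complex, smul_eq_mul]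
    rw [integral_indicator hmB1]
    have : |((2:ℝ) ^ 2)⁻¹| ≤ 1 := by norm_num [abs_of_pos]
    nlinarith
  calc |∫ x, (g x - g (2 * x)) ∂muB| ≤ ∫ x, |g x - g (2 * x)| ∂muB := abs_integral_le_integral_abs
    _ ≤ ∫ x, (|g x - a| + |g (2 * x) - a|) ∂muB := by
        refine integral_mono_of_nonneg (Eventually.of_forall fun _ => abs_nonneg _) ?_ ?_
        · exact (hga.mono_set hsub).add h2i
        · refine Eventually.of_forall fun x => ?_
          have : g x - g (2 * x) = (g x - a) - (g (2 * x) - a) := by ring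
          simp only [this]
          exact abs_sub _ _
    _ = (∫ x in Bh, |g x - a|) + ∫ x in Bh, |g (2 * x) - a| :=
        integral_add (hga.mono_set hsub) h2i
    _ ≤ 2 * (volume.real B1 * K) := by linarith

end Pool.Agent.N246.Riv
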