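import Pool.Agent.N246.Riv.Pv

set_option autoImplicit false
open MeasureTheory Set Filter Topology
open scoped ENNReal

namespace Pool.Agent.N246.Riv

/-- radial cutoff, supported in `(1, 4)` -/
noncomputable def chi : ContDiffBump (5 / 2 : ℝ) := ⟨1, 3 / 2, by norm_num, by norm_num⟩

theorem chi_nonneg (t : ℝ) : 0 ≤ chi t := chi.nonneg
theorem chi_le_one (t : ℝ) : chi t ≤ 1 := chi.le_one
theorem chi_zero {t : ℝ} (h : t ≤ 1 ∨ 4 ≤ t) : chi t = 0 := by
  apply chi.zero_of_le_dist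
  rw [Real.dist_eq]
  show (3 / 2 : ℝ) ≤ _
  rcases h with h | h
  · rw [abs_of_nonpos (by linarith)]; linarith
  · rw [abs_of_nonneg (by linarith)]; linarith
theorem chi_one {t : ℝ} (h1 : 3 / 2 ≤ t) (h2 : t ≤ 7 / 2) : chi t = 1 := by
  apply chi.one_of_mem_closedBall
  rw [Metric.mem_closedBall, Real.dist_eq, abs_le]
  show -(1:ℝ) ≤ _ ∧ _ ≤ (1:ℝ)
  constructor <;> linarith

/-- the complex test function of angular frequency `m` -/
noncomputable def wc (m : ℕ) (z : ℂ) : ℂ := (chi (‖z‖ ^ 2 / m ^ 2) : ℂ) * (z / ‖z‖) ^ m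

theorem norm_wc_le (m : ℕ) (z : ℂ) : ‖wc m z‖ ≤ 1 := by
  rw [wc, norm_mul, norm_pow, norm_div, Complex.norm_real, Complex.norm_real, norm_norm,
    Real.norm_eq_abs, abs_of_nonneg (chi_nonneg _)]
  have h1 : ‖z‖ / ‖z‖ ≤ 1 := div_self_le_one _
  calc chi (‖z‖ ^ 2 / m ^ 2) * (‖z‖ / ‖z‖) ^ m ≤ 1 * 1 :=
        mul_le_mul (chi_le_one _) (pow_le_one₀ (by positivity) h1) (by positivity) zero_le_one
    _ = 1 := one_mul 1

theorem wc_rot (m : ℕ) {u : ℂ} (hu : ‖u‖ = 1) (z : ℂ) : wc m (u * z) = u ^ m * wc m z := by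
  rw [wc, wc, norm_mul, hu, one_mul, mul_div_assoc, mul_pow]
  ring

theorem wc_zero {m : ℕ} (hm : 0 < m) {z : ℂ} (h : ‖z‖ ≤ m ∨ 2 * m ≤ ‖z‖) : wc m z = 0 := by
  have hm' : (0:ℝ) < m := by exact_mod_cast hm
  rw [wc, chi_zero, Complex.ofReal_zero, zero_mul]
  rcases h with h | h
  · left
    rw [div_le_one (by positivity)]
    exact pow_le_pow_left₀ (norm_nonneg _) h 2
  · right
    rw [le_div_iff₀ (by positivity)]
    nlinarith [norm_nonneg z]

theorem wc_contDiff {m : ℕ} (hm : 0 < m) : ContDiff ℝ 1 (wc m) := by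
  rw [contDiff_iff_contDiffAt]
  intro z
  have hm' : (0:ℝ) < m := by exact_mod_cast hm
  by_cases hz : z = 0
  · have : wc m =ᶠ[𝓝 z] fun _ => 0 := by
      have hb : Metric.ball (0:ℂ) m ∈ 𝓝 z := by
        rw [hz]; exact Metric.ball_mem_nhds _ hm'
      filter_upwards [hb] with y hy
      rw [Metric.mem_ball, dist_zero_right] at hy
      exact wc_zero hm (Or.inl hy.le)
    exact contDiffAt_const.congr_of_eventuallyEq this
  · have h1 : ContDiffAt ℝ 1 (fun z : ℂ => ‖z‖) z := contDiffAt_norm ℝ hz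
    have h2 : ContDiffAt ℝ 1 (fun z : ℂ => (‖z‖ : ℂ)) z :=
      Complex.ofRealCLM.contDiff.contDiffAt.comp z h1
    have h3 : ContDiffAt ℝ 1 (fun z : ℂ => (chi (‖z‖ ^ 2 / m ^ 2) : ℂ)) z := by
      refine Complex.ofRealCLM.contDiff.contDiffAt.comp z ?_
      exact (chi.contDiff (n := 1)).contDiffAt.comp z ((h1.pow 2).div_const _)
    have h4 : ContDiffAt ℝ 1 (fun z : ℂ => z / (‖z‖ : ℂ)) z := by
      simp_rw [div_eq_mul_inv]
      refine contDiffAt_id.mul (h2.inv ?_)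
      exact_mod_cast (norm_ne_zero_iff.2 hz)
    exact h3.mul (h4.pow m)

/-- the frequencies -/
def fr (j : ℕ) : ℕ := 4 ^ (j + 1)

theorem fr_pos (j : ℕ) : 0 < fr j := by unfold fr; positivity

/-- the real test functions -/
noncomputable def tf (J : ℕ) (z : ℂ) : ℝ := ∑ j ∈ Finset.range J, (wc (fr j) (-z)).re

theorem fr_ge (j : ℕ) : 4 ≤ fr j := by
  unfold fr
  calc 4 = 4 ^ 1 := by norm_num
    _ ≤ 4 ^ (j + 1) := Nat.pow_le_pow_right (by norm_num) (by omega)

theorem fr_lt {i j : ℕ} (h : i < j) : 2 * fr i ≤ fr j := by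
  unfold fr
  calc 2 * 4 ^ (i + 1) ≤ 4 * 4 ^ (i + 1) := by omega
    _ = 4 ^ (i + 1 + 1) := by ring
    _ ≤ 4 ^ (j + 1) := Nat.pow_le_pow_right (by norm_num) (by omega)

theorem abs_tf_le (J : ℕ) (z : ℂ) : |tf J z| ≤ 1 := by
  by_cases h : ∃ i ∈ Finset.range J, wc (fr i) (-z) ≠ 0
  · obtain ⟨i, hi, hne⟩ := h
    have hi1 : (fr i : ℝ) < ‖-z‖ ∧ ‖-z‖ < 2 * fr i := by
      constructor
      · by_contra hh; push Not at hh; exact hne (wc_zero (fr_pos i) (Or.inl hh))
      · by_contra hh; push Not at hh; exact hne (wc_zero (fr_pos i) (Or.inr hh))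
    have : tf J z = (wc (fr i) (-z)).re := by
      refine Finset.sum_eq_single i ?_ (fun hh => absurd hi hh)
      intro j _ hj
      rcases lt_or_gt_of_ne hj with hlt | hgt
      · rw [wc_zero (fr_pos j) (Or.inr ?_)]; · simp
        have : (2 * fr j : ℝ) ≤ fr i := by exact_mod_cast fr_lt hlt
        linarith [hi1.1]
      · rw [wc_zero (fr_pos j) (Or.inl ?_)]; · simp
        have : (2 * fr i : ℝ) ≤ fr j := by exact_mod_cast fr_lt hgt
        linarith [hi1.2]
    rw [this]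
    exact (Complex.abs_re_le_norm _).trans (norm_wc_le _ _)
  · push Not at h
    have : tf J z = 0 := Finset.sum_eq_zero fun j hj => by rw [h j hj]; simp
    rw [this]; simp

theorem tf_contDiff (J : ℕ) : ContDiff ℝ 1 (tf J) := by
  refine ContDiff.sum fun j _ => ?_
  exact Complex.reCLM.contDiff.comp ((wc_contDiff (fr_pos j)).comp contDiff_neg)

theorem tf_zero_near {J : ℕ} {z : ℂ} (h : ‖z‖ ≤ 4) : tf J z = 0 := by
  refine Finset.sum_eq_zero fun j _ => ?_
  rw [wc_zero (fr_pos j) (Or.inl ?_)]; · simp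
  rw [norm_neg]
  have : (4:ℝ) ≤ fr j := by exact_mod_cast fr_ge j
  linarith

theorem tf_zero_far {J : ℕ} {z : ℂ} (h : (2 * fr J : ℝ) < ‖z‖) : tf J z = 0 := by
  refine Finset.sum_eq_zero fun j hj => ?_
  rw [wc_zero (fr_pos j) (Or.inr ?_)]; · simp
  rw [norm_neg]
  have h1 := fr_lt (Finset.mem_range.1 hj)
  have h2 : (2 * fr j : ℝ) ≤ fr J := by exact_mod_cast h1
  have h3 : (0:ℝ) ≤ fr J := by positivity
  linarith

theorem tf_hasCompactSupport (J : ℕ) : HasCompactSupport (tf J) := by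
  refine HasCompactSupport.intro (isCompact_closedBall (0:ℂ) (2 * fr J)) fun z hz => ?_
  rw [Metric.mem_closedBall, dist_zero_right, not_le] at hz
  exact tf_zero_far hz

theorem tf_lipschitz (J : ℕ) : ∃ L, LipschitzWith L (tf J) :=
  ContDiff.lipschitzWith_of_hasCompactSupport (tf_hasCompactSupport J) (tf_contDiff J)
    (by norm_num)

end Pool.Agent.N246.Riv
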